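import Pool.Agent.U820.BW.Jt
import Pool.Agent.U820.BW.Rh
import Pool.Agent.U820.BW.Pw

/-!
# Laws of bounded linear combinations are dominated by the arcsine law (MP_a28cf0_nt)

`MW` is the space of all smooth solutions of `Δf + f = 0` on the plane (`Pool.Agent.N661.BR.Defs`).
The joint local limits of `k` Maass forms with spectral parameters `t_i → ∞`, `t_i / t_j → 1` (the
laws of the forms near a random point, at the scale of the wavelength) are probability measures on
`MW^k` which are invariant under the simultaneous translations. According to Q1 they are `k`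
independent Gaussian waves, and then every nonzero linear combination of values is unbounded. The
theorem determines how bounded linear combinations can be distributed.
(1) Let `ℓ = ∑ t_j F_{i_j}(w_j)` be any finite linear combination of values of the `k` waves `F_i`,
with `|ℓ| ≤ M` almost surely. Then `E g(ℓ) ≤ (1/π) ∫_0^π g(M cos θ) dθ` for every convex function `g`:
the law of `ℓ` is dominated in the convex order by the arcsine law on `[-M, M]`. In particular
`E |ℓ|^p ≤ M^p (1/π) ∫_0^π |cos θ|^p dθ` for all `p ≥ 1`. Nothing is assumed about the dependence of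
the `F_i`, isotropy or ergodicity.
(2) The random plane wave `M cos(x + θ)` attains equality for all `g` at once.
(3) One form (`I = 1`): if `|u| ≤ M` on an open set `U` of the hyperbolic plane then the law of the
values of `u`, weighted with a test function on `U`, satisfies this inequality up to `ε`, for all real
eigenfunctions `u` on `U` with large eigenvalue; nothing is assumed about `u` elsewhere. For the Maass
forms the eigenvalue is `1/4 + t²`.
(4) For sequences which are quantum ergodic over an open set `Ω` of finite area (for instance the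
Hecke-Maass forms of the modular surface and its fundamental domain, by the theorems of Lindenstrauss
and Soundararajan) it is enough that the area of `{|u n| > M}` is small: then the values of `u n`, cut
off at `-M` and `M`, satisfy the inequality up to `ε`.

Proof. Bounded waves satisfy `|∇f|² ≤ M² - f²` (library of the files `LargeValues` of MP_4fa179_mp
and MP_6b977f_mp, and its local version). For a nondecreasing `C¹` function `φ` the equality
`E φ'(f) |∇f|² = E φ(f) f` (integration by parts) then gives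
`E [φ(f) f - φ'(f) (M² - f²)] ≤ 0`. For a convex function `g` let `ḡ` be its mean for the arcsine law on
`[-N, N]`, `N > M`. The solution of `x φ(x) - (N² - x²) φ'(x) = g(x) - ḡ` which is regular at both ends is
`φ(N cos θ) = (N sin θ)⁻¹ ∫_0^θ (g(N cos t) - ḡ) dt`. It is nondecreasing: with a supporting line of `g`
this is reduced to Jensen's inequality and `θ cos θ ≤ sin θ`. So `E g(f) ≤ ḡ`; let `N → M`. (4) uses
the compactness theorem for the local measures.
-/

set_option autoImplicit false
open MeasureTheory Filter Topology ProbabilityTheory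
open scoped ContDiff ENNReal

namespace Pool.Agent.Results.MP_a28cf0_nt.ConvexOrder

open Pool.Agent.W745.RW (lap TF)
open Pool.Agent.N661.BR (MW shift IsStationary)
open Pool.Agent.N661.BH (HP IsQuantumErgodic)

noncomputable section

/-- the mean of `g` for the arcsine law on `[-M, M]`, the law of `M cos θ` with `θ` uniform -/
def arcsineMean (g : ℝ → ℝ) (M : ℝ) : ℝ :=
  (1 / Real.pi) * ∫ θ in (0 : ℝ)..Real.pi, g (M * Real.cos θ)

/-- the value `x` cut off at `-M` and `M` -/
def cutOff (M x : ℝ) : ℝ := max (-M) (min x M)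

/-- the law `μ` of the `k` waves is invariant under the simultaneous translations -/
def IsJointlyStationary {k : ℕ} (μ : Measure (Fin k → MW)) : Prop :=
  ∀ x : ℂ, μ.map (fun F i => shift x (F i)) = μ

/-- the linear combination `∑ t_j F_{i_j}(w_j)` of values of the waves `F_1, …, F_k` -/
def comb {k n : ℕ} (i : Fin n → Fin k) (w : Fin n → ℂ) (t : Fin n → ℝ) (F : Fin k → MW) : ℝ :=
  ∑ j, t j * F (i j) (w j)

/-- the integral `∫ g dx dy / y²` over the subset `A` of the half plane -/
def hint (A : Set ℂ) (g : ℂ → ℝ) : ℝ := ∫ z in A, g z * (1 / z.im ^ 2)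

/-- the hyperbolic area of a set in the half plane -/
def harea (A : Set ℂ) : ℝ := ∫ z in A, 1 / z.im ^ 2

/-- **Result.** See the head of the file. -/
theorem result :
    -- (1) several jointly stationary waves
    (∀ (k : ℕ) (μ : Measure (Fin k → MW)), IsProbabilityMeasure μ → IsJointlyStationary μ →
      ∀ (n : ℕ) (i : Fin n → Fin k) (w : Fin n → ℂ) (t : Fin n → ℝ) (M : ℝ), 0 ≤ M →
      (∀ᵐ F ∂μ, |comb i w t F| ≤ M) → ∀ g : ℝ → ℝ, ConvexOn ℝ Set.univ g →
      ∫ F, g (comb i w t F) ∂μ ≤ arcsineMean g M) ∧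
    -- (2) equality
    (∀ M : ℝ, 0 ≤ M → ∃ μ : Measure MW, IsProbabilityMeasure μ ∧ IsStationary μ ∧
      (∀ᵐ f : MW ∂μ, |f 0| ≤ M) ∧
      ∀ g : ℝ → ℝ, Continuous g → ∫ f : MW, g (f 0) ∂μ = arcsineMean g M) ∧
    -- (3) eigenfunctions which are bounded on an open set of the hyperbolic plane
    (∀ U : Set ℂ, IsOpen U → U ⊆ HP → ∀ χ : ℂ → ℝ, TF U χ → (∀ z, 0 ≤ χ z) → ∀ g : ℝ → ℝ,
      ConvexOn ℝ Set.univ g → ∀ M ε : ℝ, 0 ≤ M → 0 < ε →
      ∀ᶠ lam : ℝ in atTop, ∀ u : ℂ → ℝ, ContDiffOn ℝ ∞ u U →
        (∀ z ∈ U, z.im ^ 2 * lap u z + lam * u z = 0) → (∀ z ∈ U, |u z| ≤ M) →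
        hint U (fun z => χ z * g (u z)) ≤ arcsineMean g M * hint U χ + ε) ∧
    -- (4) quantum ergodic sequences
    (∀ Ω : Set ℂ, IsOpen Ω → Ω ⊆ HP → Ω.Nonempty → IntegrableOn (fun z : ℂ => 1 / z.im ^ 2) Ω →
      ∀ (lam : ℕ → ℝ) (u : ℕ → ℂ → ℝ), (∀ n, 0 < lam n) → Tendsto lam atTop atTop →
      (∀ n, ContDiffOn ℝ ∞ (u n) HP) → (∀ n, ∀ z ∈ HP, z.im ^ 2 * lap (u n) z + lam n * u n z = 0) →
      IsQuantumErgodic Ω lam u → ∀ g : ℝ → ℝ, ConvexOn ℝ Set.univ g → ∀ M ε : ℝ, 0 ≤ M → 0 < ε →
      ∃ δ : ℝ, 0 < δ ∧ ∀ᶠ n in atTop, harea {z | z ∈ Ω ∧ M < |u n z|} ≤ δ →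
        hint Ω (fun z => g (cutOff M (u n z))) ≤ (arcsineMean g M + ε) * harea Ω) := by
  refine ⟨?_, ?_, ?_, ?_⟩
  · intro k μ hμ hs n i w t M hM hb g hg
    exact Pool.Agent.U820.BW.joint_cx hs hg i w t hM hb
  · intro M hM
    exact ⟨Pool.Agent.U820.BW.rpw M, Pool.Agent.U820.BW.rpw_prob M, Pool.Agent.U820.BW.rpw_stat M,
      Pool.Agent.U820.BW.rpw_bd hM, fun g hg => Pool.Agent.U820.BW.rpw_int hg M⟩
  · intro U hU hHP χ hχ hχ0 g hg M ε hM hε
    have hgc : Continuous g := hg.locallyLipschitz.continuous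
    have him : ∀ z ∈ U, (0 : ℝ) < z.im := fun z hz => hHP hz
    have hρ : ContDiffOn ℝ ∞ (fun z : ℂ => 1 / z.im ^ 2) U := by
      have h1 : ContDiff ℝ ∞ (fun z : ℂ => z.im) := Complex.imCLM.contDiff
      exact contDiffOn_const.div (h1.pow 2).contDiffOn fun z hz => by
        have := him z hz
        positivity
    have hout : ∀ (F : ℂ → ℝ), ∫ z, χ z * F z = ∫ z in U, χ z * F z := by
      intro F
      refine (setIntegral_eq_integral_of_forall_compl_eq_zero fun z hz => ?_).symm
      have h2 : z ∉ tsupport χ := fun h => hz (hχ.2.2 h)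
      rw [image_eq_zero_of_notMem_tsupport h2, zero_mul]
    have e1 : ∀ u : ℂ → ℝ, hint U (fun z => χ z * g (u z)) =
        ∫ z, χ z * (1 / z.im ^ 2 * g (u z)) := by
      intro u
      rw [hout]
      unfold hint
      congr 1
      funext z
      ring
    have e2 : hint U χ = ∫ z, χ z * (1 / z.im ^ 2) := by
      rw [hout]
      rfl
    set A₁ : ℝ := ∫ z, χ z * (1 / z.im ^ 2) with hA₁
    have hcont : Tendsto (fun N => Pool.Agent.U820.BW.arc g N * A₁) (𝓝[>] M)
        (𝓝 (Pool.Agent.U820.BW.arc g M * A₁)) :=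
      (((Pool.Agent.U820.BW.arc_cont hgc).mul continuous_const).tendsto M).mono_left
        nhdsWithin_le_nhds
    have h1 : ∀ᶠ N in 𝓝[>] M, Pool.Agent.U820.BW.arc g N * A₁ <
        Pool.Agent.U820.BW.arc g M * A₁ + ε / 2 :=
      hcont.eventually_lt_const (by linarith)
    obtain ⟨N, hN1, hN2⟩ := (h1.and self_mem_nhdsWithin).exists
    have hN2' : M < N := hN2
    filter_upwards [Pool.Agent.U820.BW.cx hU hg (ρ := fun z : ℂ => 1 / z.im ^ 2) hρ
      (fun z hz => by have := him z hz; positivity) hχ.1 hχ.2.1 hχ.2.2 hχ0 hM hN2'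
      (half_pos hε)] with lam h2
    intro u hu heq hb
    have h3 := h2 u hu (fun z hz => by
      have h4 := heq z hz
      have h5 := him z hz
      have h6 : lap u z = - (lam * u z) / z.im ^ 2 := by
        rw [eq_div_iff (by positivity)]
        linarith
      show lap u z + lam * (1 / z.im ^ 2 * u z) = 0
      rw [h6]
      field_simp
      ring) hb
    rw [e1, e2]
    have h7 : Pool.Agent.U820.BW.arc g M * A₁ = arcsineMean g M * A₁ := rfl
    linarith
  · intro Ω hΩ hHP hne hA lam u hpos hlam hu heq hqe g hg M ε hM hε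
    exact Pool.Agent.U820.BW.qe_cx_h hΩ hHP hne hA hpos hlam hu heq hqe hM hg hε

end

end Pool.Agent.Results.MP_a28cf0_nt.ConvexOrder
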