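import Pool.Agent.U39.AN.R

/-!
# The law of the direction of a pair of eigenfunctions in the limit (MP_a28cf0_nt)

Let `f_1, …, f_k` be Hecke-Maass forms (or `L²` normalised Laplace eigenfunctions of any surface or
manifold of dimension `d`) whose spectral parameters `t_i` tend to infinity and are of the same order.
The joint local limits of `(f_1, …, f_k)` near a random point, at the scale `1 / max t_i`, are
laws of jointly stationary random fields `(F_1, …, F_k)` on `ℝ^d` with smooth samples,
`ΔF_i + κ_i² F_i = 0`, `κ_i = lim t_i / max t_j`, and `E F_i(0)² < ∞`. If the question has a positive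
answer, then the `F_i` are independent isotropic Gaussian waves. The theorem is about all such limits,
with no hypothesis on the dependence of the `F_i`, on their spectral measures, or on moments of order
larger than two.

Equal frequencies (`κ_i = 1`). Let `U`, `V` be any two linear combinations of the partial derivatives, of any orders, of the `F_i`, for
instance `(U, V) = (F_1, F_2)`, or `(F_1, ∂_1 F_1)`, or the first two components of the gradient of
`F_1`. Let `θ` be the direction of the vector `(U(0), V(0))`. Then either `U` and `V` are linearly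
dependent functions, or `U ∇V - V ∇U ≠ 0` at `0`, almost surely. On the second event the law of `θ` is
equivalent to the uniform law: `θ ∈ B` has the probability `0` if and only if `B` has the length `0`. More
precisely the law of `θ` is exactly uniform if the probability is weighted by
`W = |U ∇V - V ∇U|² / (U² + V²) = |Ψ|² |∇ arg Ψ|²`, `Ψ = U + i V`, at the point `0`.

Different frequencies. Let `U = F_1`, `V = F_2`. The law of `θ` weighted by `W` has a square integrable
density, and its Fourier coefficient of order `n` is at most `|κ_1² - κ_2²| E|F_1(0) F_2(0)| / |n|`. Almost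
surely `U ∇V - V ∇U ≠ 0` at `0`, or `U ≡ 0` or `V ≡ 0`. So the law of `θ` (and of the quotient `V(0) / U(0)`)
is absolutely continuous outside of the event that one of the waves is identically zero.

Proof idea. The current `J = U ∇V - V ∇U` has the divergence `(κ_1² - κ_2²) U V`, and `0` for equal
frequencies. So for `g(Ψ) = (Ψ / |Ψ|)^n` stationarity gives `0 = E div (g(Ψ) J) = E ⟨∇ g(Ψ), J⟩`, and
`∇ g(Ψ) = i n g(Ψ) J / |Ψ|²`. So all Fourier coefficients of order `n ≠ 0` of the law of `θ` weighted by
`W` vanish. (At the zeros of `Ψ` the function `g` is regularised: the gradient of `g(Ψ)` is not bounded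
there, but `⟨∇ g(Ψ), J⟩` is at most `n |∇Ψ|²`.) Almost surely `J(0) = 0` implies `J ≡ 0`, by the
rigidity of polynomial relations in jointly stationary waves (`MeanAngle`), and then `V / U` is locally
constant; the samples are real analytic on lines, so `U` and `V` are linearly dependent. For different
frequencies there is the additional term `(κ_1² - κ_2²) E [g(Ψ) U V]`, so the Fourier coefficients are
`O(1 / n)`, and a measure with square summable coefficients has a square integrable density.
-/

set_option autoImplicit false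
open MeasureTheory Filter Topology
open scoped ContDiff ENNReal

namespace Pool.Agent.Results.MP_a28cf0_nt.DirectionLaw

noncomputable section

/-- the partial derivative `∂_i` -/
def pd {d : ℕ} (i : Fin d) (f : EuclideanSpace ℝ (Fin d) → ℝ) (y : EuclideanSpace ℝ (Fin d)) : ℝ :=
  fderiv ℝ f y (EuclideanSpace.single i 1)

/-- `F 0, …, F (k-1)` are jointly stationary waves on `ℝ^d` with the frequencies `κ i ∈ (0, 1]`: random
functions with smooth samples, `ΔF_i + κ_i² F_i = 0`, where `Δ = ∑ ∂_j²`, and `E F_i(0)² < ∞`. Jointly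
stationary means: the shifted tuple has the same law, in the product of copies of `ℝ` indexed by the
pairs of an index and a point. Nothing is assumed on the dependence of the `F i`. -/
structure IsJointWave {d k : ℕ} {S : Type*} [MeasurableSpace S] (P : Measure S) (κ : Fin k → ℝ)
    (F : Fin k → S → EuclideanSpace ℝ (Fin d) → ℝ) : Prop where
  prob : IsProbabilityMeasure P
  pos : ∀ i, 0 < κ i
  le_one : ∀ i, κ i ≤ 1
  measurable : ∀ i y, Measurable fun s => F i s y
  smooth : ∀ i s, ContDiff ℝ ∞ (F i s)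
  eigen : ∀ i s y, (∑ j, pd j (pd j (F i s)) y) + κ i ^ 2 * F i s y = 0
  stationary : ∀ x : EuclideanSpace ℝ (Fin d),
    P.map (fun s i y => F i s (y + x)) = P.map (fun s i y => F i s y)
  moment : ∀ i, Integrable (fun s => F i s 0 ^ 2) P

/-- partial derivatives: `partialD [i₁, …, iₖ] f = ∂_{i₁} ⋯ ∂_{iₖ} f`, and `partialD [] f = f` -/
def partialD {d : ℕ} : List (Fin d) → (EuclideanSpace ℝ (Fin d) → ℝ) →
    EuclideanSpace ℝ (Fin d) → ℝ
  | [], f => f
  | i :: L, f => pd i (partialD L f)

/-- the finite linear combination `∑ a_{i,L} ∂_L f_i` of partial derivatives of `f 0, …, f (k-1)` -/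
def linComb {d k : ℕ} (a : (Fin k × List (Fin d)) →₀ ℝ) (f : Fin k → EuclideanSpace ℝ (Fin d) → ℝ)
    (y : EuclideanSpace ℝ (Fin d)) : ℝ :=
  a.sum fun j c => c * partialD j.2 (f j.1) y

/-- the `i`-th component of the current `u ∇v - v ∇u`, at the point `0` -/
def current {d : ℕ} (u v : EuclideanSpace ℝ (Fin d) → ℝ) (i : Fin d) : ℝ :=
  u 0 * pd i v 0 - v 0 * pd i u 0

/-- `W = |u ∇v - v ∇u|² / (u² + v²)`, at the point `0` (and `W = 0` if `u(0) = v(0) = 0`) -/
def weight {d : ℕ} (u v : EuclideanSpace ℝ (Fin d) → ℝ) : ℝ :=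
  (∑ i, current u v i ^ 2) / (u 0 ^ 2 + v 0 ^ 2)

/-- the direction of the vector `(u(0), v(0))`: the argument of `u(0) + i v(0)` modulo `2π` -/
def direction {d : ℕ} (u v : EuclideanSpace ℝ (Fin d) → ℝ) : AddCircle (2 * Real.pi) :=
  ((Complex.arg ⟨u 0, v 0⟩ : ℝ) : AddCircle (2 * Real.pi))

open Pool.Agent.U39.SZ in
lemma partialD_eq {d : ℕ} (L : List (Fin d)) (f : EuclideanSpace ℝ (Fin d) → ℝ) :
    partialD L f = jt L f := by
  induction L with
  | nil => rfl
  | cons i L ih =>
    show pd i (partialD L f) = _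
    rw [ih]
    rfl

open Pool.Agent.U39.AN in
lemma linComb_eq {d k : ℕ} (a : (Fin k × List (Fin d)) →₀ ℝ)
    (f : Fin k → EuclideanSpace ℝ (Fin d) → ℝ) : linComb a f = lc a f := by
  funext y
  unfold linComb lc
  simp only [partialD_eq]

open Pool.Agent.U39.AN in
lemma current_eq {d : ℕ} {S : Type*} (u v : S → EuclideanSpace ℝ (Fin d) → ℝ) (s : S) (i : Fin d) :
    current (u s) (v s) i = Jc u v i s 0 := rfl

open Pool.Agent.U39.AN in
lemma weight_eq {d : ℕ} {S : Type*} (u v : S → EuclideanSpace ℝ (Fin d) → ℝ) (s : S) :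
    weight (u s) (v s) = Wt2 u v s := by
  unfold weight Wt2
  rw [zz_norm]
  rfl

open Pool.Agent.U39.AN in
lemma direction_eq {d : ℕ} (u v : EuclideanSpace ℝ (Fin d) → ℝ) :
    direction u v = (((zz (u 0) (v 0)).arg : ℝ) : AddCircle (2 * Real.pi)) := by
  unfold direction zz
  rw [Complex.mk_eq_add_mul_I]

open Pool.Agent.U39.AN in
lemma JL_of {d k : ℕ} {S : Type*} [MeasurableSpace S] {P : Measure S} {κ : Fin k → ℝ}
    {F : Fin k → S → EuclideanSpace ℝ (Fin d) → ℝ} (h : IsJointWave P κ F) :
    JL P κ F :=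
  ⟨h.pos, h.le_one, h.measurable, h.smooth, h.eigen, h.stationary, h.moment⟩

lemma dep_current {d : ℕ} {u v : EuclideanSpace ℝ (Fin d) → ℝ} (hu : ContDiff ℝ ∞ u)
    (hv : ContDiff ℝ ∞ v) {a b : ℝ} (hab : a ≠ 0 ∨ b ≠ 0) (h : ∀ y, a * u y + b * v y = 0)
    (i : Fin d) : current u v i = 0 := by
  have hu' := (hu.differentiable (by simp) 0).hasFDerivAt
  have hv' := (hv.differentiable (by simp) 0).hasFDerivAt
  have h1 : HasFDerivAt (fun y => a * u y + b * v y) (a • fderiv ℝ u 0 + b • fderiv ℝ v 0) 0 :=
    (hu'.const_mul a).add (hv'.const_mul b)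
  have h2 : (fun y => a * u y + b * v y) = fun _ => 0 := funext h
  rw [h2] at h1
  have h3 := h1.unique (hasFDerivAt_const (0 : ℝ) 0)
  have h4 : a * pd i u 0 + b * pd i v 0 = 0 := by
    have := congrArg (fun l => l (EuclideanSpace.single i (1 : ℝ))) h3
    simpa [pd] using this
  have h5 := h 0
  unfold current
  rcases hab with ha | hb
  · have : a * (u 0 * pd i v 0 - v 0 * pd i u 0) = 0 := by
      linear_combination pd i v 0 * h5 - v 0 * h4
    exact (mul_eq_zero.1 this).resolve_left ha
  · have : b * (u 0 * pd i v 0 - v 0 * pd i u 0) = 0 := by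
      linear_combination u 0 * h4 - pd i u 0 * h5
    exact (mul_eq_zero.1 this).resolve_left hb

/-- **Result.** Let `F_1, …, F_k` be jointly stationary waves on `ℝ^d` with frequencies in `(0, 1]`.
(A) Assume that all frequencies are `1`, and let `U`, `V` be linear combinations of the partial
derivatives, of any orders, of the `F_i`.
(A1) Almost surely: the functions `U`, `V` are linearly independent if and only if the current
`U ∇V - V ∇U` does not vanish at the point `0`.
(A2) Let `W = |U ∇V - V ∇U|² / (U² + V²)` at the point `0`. Then `E W ≤ E U(0)² + E V(0)²`, and the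
direction `θ` of the vector `(U(0), V(0))` has the uniform law with respect to the measure `W P`:
`E [W; θ ∈ B] = |B| E W` for all Borel sets `B` of the circle, where `|B|` is the normalised length.
(A3) If `U`, `V` are linearly independent with positive probability, then for all Borel sets `B` of the
circle: `U`, `V` are linearly independent and `θ ∈ B` with the probability zero if and only if
`|B| = 0`.
(B) Let `k = 2` (any frequencies `κ_1`, `κ_2`), and let `U = F_1`, `V = F_2`, with `W` and `θ` as above.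
(B1) `E W ≤ κ_1² E U(0)² + κ_2² E V(0)²`.
(B2) `|E [W exp(i n θ)]| ≤ |κ_1² - κ_2²| E |U(0) V(0)| / |n|` for all integers `n ≠ 0`.
(B3) The law of `θ` with respect to the measure `W P` has a square integrable density with respect to
the normalised length.
(B4) If `κ_1 ≠ κ_2`, then almost surely: `U ∇V - V ∇U` does not vanish at the point `0`, or `U` or `V` is
identically zero.
(B5) If `κ_1 ≠ κ_2` and `|B| = 0`, then the probability that `θ ∈ B` and neither `U` nor `V` is
identically zero is zero. -/
theorem result.{u} :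
    (∀ (d k : ℕ) (S : Type u) (_ : MeasurableSpace S) (P : Measure S)
      (F : Fin k → S → EuclideanSpace ℝ (Fin d) → ℝ), IsJointWave P (fun _ => 1) F →
      ∀ (a b : (Fin k × List (Fin d)) →₀ ℝ) (U V : S → EuclideanSpace ℝ (Fin d) → ℝ),
      (U = fun s => linComb a (fun i => F i s)) → (V = fun s => linComb b (fun i => F i s)) →
      (∀ᵐ s ∂P, LinearIndependent ℝ ![U s, V s] ↔ ∃ i, current (U s) (V s) i ≠ 0) ∧
      (∫⁻ s, ENNReal.ofReal (weight (U s) (V s)) ∂P ≤
        ENNReal.ofReal (∫ s, U s 0 ^ 2 ∂P + ∫ s, V s 0 ^ 2 ∂P)) ∧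
      (∀ B : Set (AddCircle (2 * Real.pi)), MeasurableSet B →
        ∫⁻ s in {s | direction (U s) (V s) ∈ B}, ENNReal.ofReal (weight (U s) (V s)) ∂P =
          AddCircle.haarAddCircle B * ∫⁻ s, ENNReal.ofReal (weight (U s) (V s)) ∂P) ∧
      (P {s | LinearIndependent ℝ ![U s, V s]} ≠ 0 →
        ∀ B : Set (AddCircle (2 * Real.pi)), MeasurableSet B →
        (P {s | LinearIndependent ℝ ![U s, V s] ∧ direction (U s) (V s) ∈ B} = 0 ↔
          AddCircle.haarAddCircle B = 0))) ∧
    (∀ (d : ℕ) (S : Type u) (_ : MeasurableSpace S) (P : Measure S) (κ : Fin 2 → ℝ)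
      (F : Fin 2 → S → EuclideanSpace ℝ (Fin d) → ℝ), IsJointWave P κ F →
      (∫⁻ s, ENNReal.ofReal (weight (F 0 s) (F 1 s)) ∂P ≤
        ENNReal.ofReal (κ 0 ^ 2 * ∫ s, F 0 s 0 ^ 2 ∂P + κ 1 ^ 2 * ∫ s, F 1 s 0 ^ 2 ∂P)) ∧
      (∀ n : ℤ, n ≠ 0 →
        ‖∫ s, ((weight (F 0 s) (F 1 s) : ℝ) : ℂ) * fourier n (direction (F 0 s) (F 1 s)) ∂P‖ ≤
          |κ 0 ^ 2 - κ 1 ^ 2| * (∫ s, |F 0 s 0 * F 1 s 0| ∂P) / |(n : ℝ)|) ∧
      (∃ g : AddCircle (2 * Real.pi) → ℝ, Measurable g ∧ MemLp g 2 AddCircle.haarAddCircle ∧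
        ∀ B : Set (AddCircle (2 * Real.pi)), MeasurableSet B →
          ∫⁻ s in {s | direction (F 0 s) (F 1 s) ∈ B},
            ENNReal.ofReal (weight (F 0 s) (F 1 s)) ∂P =
          ∫⁻ x in B, ENNReal.ofReal (g x) ∂AddCircle.haarAddCircle) ∧
      (κ 0 ≠ κ 1 → ∀ᵐ s ∂P, (∃ i, current (F 0 s) (F 1 s) i ≠ 0) ∨ (∀ y, F 0 s y = 0) ∨
        (∀ y, F 1 s y = 0)) ∧
      (κ 0 ≠ κ 1 → ∀ B : Set (AddCircle (2 * Real.pi)), MeasurableSet B →
        AddCircle.haarAddCircle B = 0 →
        P {s | direction (F 0 s) (F 1 s) ∈ B ∧ (∃ y, F 0 s y ≠ 0) ∧ ∃ y, F 1 s y ≠ 0} = 0)) := by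
  refine ⟨?_, ?_⟩
  · intro d k S _ P F hF a b U V hU hV
    have := hF.prob
    obtain ⟨h1, h2, h3, h4⟩ := (JL_of hF).dirs2 a b (u := U) (v := V)
      (by rw [hU]; simp only [linComb_eq]) (by rw [hV]; simp only [linComb_eq])
    have sm : ∀ (a : (Fin k × List (Fin d)) →₀ ℝ) s,
        ContDiff ℝ ∞ (linComb a (fun i => F i s)) := by
      intro a s
      have : linComb a (fun i => F i s) = fun y =>
          ∑ j ∈ a.support, a j * Pool.Agent.U39.SZ.jt j.2 (F j.1 s) y := by
        rw [linComb_eq]
        rfl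
      rw [this]
      exact ContDiff.sum fun j _ => contDiff_const.mul
        (Pool.Agent.U39.AN.jt_sm (hF.smooth j.1 s) j.2)
    have sU : ∀ s, ContDiff ℝ ∞ (U s) := fun s => by rw [hU]; exact sm a s
    have sV : ∀ s, ContDiff ℝ ∞ (V s) := fun s => by rw [hV]; exact sm b s
    have hI : ∀ᵐ s ∂P, LinearIndependent ℝ ![U s, V s] ↔ ∃ i, current (U s) (V s) i ≠ 0 := by
      filter_upwards [h4] with s hs
      constructor
      · intro hl
        by_contra hn
        push Not at hn
        obtain ⟨α, β, hαβ, hy⟩ := hs hn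
        have h5 := LinearIndependent.pair_iff.1 hl α β (by
          funext y
          exact hy y)
        rcases hαβ with h | h
        · exact h h5.1
        · exact h h5.2
      · rintro ⟨i, hi⟩
        rw [LinearIndependent.pair_iff]
        intro α β hαβ
        by_contra hn
        have h5 : α ≠ 0 ∨ β ≠ 0 := by
          by_contra h6
          push Not at h6
          exact hn h6
        exact hi (dep_current (sU s) (sV s) h5 (fun y => congrFun hαβ y) i)
    simp only [weight_eq, direction_eq]
    refine ⟨hI, h1, h2, fun h0 B mB => ?_⟩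
    have e1 : P {s | LinearIndependent ℝ ![U s, V s]} =
        P {s | ∃ i, Pool.Agent.U39.AN.Jc U V i s 0 ≠ 0} := by
      refine measure_congr ?_
      filter_upwards [hI] with s hs
      exact propext hs
    have e2 : P {s | LinearIndependent ℝ ![U s, V s] ∧
          (((Pool.Agent.U39.AN.zz (U s 0) (V s 0)).arg : ℝ) : AddCircle (2 * Real.pi)) ∈ B} =
        P {s | (∃ i, Pool.Agent.U39.AN.Jc U V i s 0 ≠ 0) ∧
          (((Pool.Agent.U39.AN.zz (U s 0) (V s 0)).arg : ℝ) : AddCircle (2 * Real.pi)) ∈ B} := by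
      refine measure_congr ?_
      filter_upwards [hI] with s hs
      exact propext (and_congr_left fun _ => hs)
    rw [e2]
    exact h3 (by rw [← e1]; exact h0) B mB
  · intro d S _ P κ F hF
    have := hF.prob
    obtain ⟨h1, h2, h3, h4, h5⟩ := (JL_of hF).dens
    simp only [weight_eq, direction_eq]
    have h6 : κ 0 ≠ κ 1 → ∀ᵐ s ∂P, (∃ i, current (F 0 s) (F 1 s) i ≠ 0) ∨ (∀ y, F 0 s y = 0) ∨
          (∀ y, F 1 s y = 0) := by
      intro hκ
      filter_upwards [h5 hκ] with s hs
      by_cases hJ : ∃ i, current (F 0 s) (F 1 s) i ≠ 0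
      · exact Or.inl hJ
      · push Not at hJ
        exact Or.inr (hs hJ)
    refine ⟨h1, h2, h3, h6, fun hκ B mB h0 => ?_⟩
    have h7 := h4 B mB h0
    have h8 := h6 hκ
    rw [ae_iff] at h8
    refine measure_mono_null (fun s hs => ?_) (measure_union_null h7 h8)
    obtain ⟨hs1, ⟨y0, hy0⟩, ⟨y1, hy1⟩⟩ := hs
    by_cases hJ : ∃ i, current (F 0 s) (F 1 s) i ≠ 0
    · exact Or.inl ⟨hJ, hs1⟩
    · refine Or.inr ?_
      show ¬ _
      rintro (h | h | h)
      · exact hJ h
      · exact hy0 (h y0)
      · exact hy1 (h y1)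

end

end Pool.Agent.Results.MP_a28cf0_nt.DirectionLaw
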