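import Mathlib
import Pool.Agent.U766.SN.Int
import Pool.Agent.U766.SN.GM
import Pool.Agent.N889.SN.Fin
import Pool.Agent.U14.JM.Gauss

set_option autoImplicit false

/-!
# MP_a28cf0_nt: the joint moments conjecture, characteristic functions, and the moments on one small disc

`HeckeMaass t f`: `f` is a real Hecke-Maass cusp form for the full modular group with spectral parameter
`t`, normalised by `(3 / π) ∫ f² dμ = 1` over the fundamental domain. On the upper half-plane `ℍ` all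
integrals are with respect to `dμ = dx dy / y²` (the measure `volume` of Mathlib). `Big z₀ r`: some
modular translate of `z₀` has height greater than `1 / (2 r)`; this holds for all `z₀` if `r > 1 / √3`,
and for arbitrarily small `r` if `z₀` is high in the cusp. `gam ι` is the standard Gaussian measure on
`ℝ^ι` and `Cn n` the `n`-th moment of the standard Gaussian law on the line (`Pool.Agent.U14.JM.Gauss`).

Proof. The moments of the single forms on compact sets are controlled by those on the disc `D`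
(`one`, `two`: from `MomentsAreLocal`, MP_a54f13_nt, by helper766). So the joint law and the boundedness of
the moments on `D` give uniform integrability of all monomials and, by truncation, convergence of all joint
moments (`deg`). Conversely, the joint moments give the moments of all linear combinations, the
method of moments gives their characteristic functions, and the theorem of Levy the joint law.
-/

namespace Pool.Agent.Results.MP_a28cf0_nt.JointMomentsAreLocal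

open MeasureTheory UpperHalfPlane Filter Topology Complex ProbabilityTheory
open scoped ContDiff ENNReal MatrixGroups Modular
open Pool.Agent.U766.SN (Good)
open Pool.Agent.U14.JM (gam Cn)

/-- real-valued Hecke-Maass cusp forms for `SL_2(ℤ)` with spectral parameter `t`, normalised -/
structure HeckeMaass (t : ℝ) (f : ℂ → ℝ) : Prop where
  pos : 0 < t
  smooth : ContDiffOn ℝ ∞ f {z : ℂ | 0 < z.im}
  inv : ∀ z : ℂ, 0 < z.im → f (z + 1) = f z ∧ f (-z⁻¹) = f z
  eigen : ∀ z : ℂ, 0 < z.im →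
    -z.im ^ 2 * (deriv (deriv (fun s : ℝ => f (z + (s : ℂ)))) 0 +
      deriv (deriv (fun s : ℝ => f (z + (s : ℂ) * Complex.I))) 0) = (1 / 4 + t ^ 2) * f z
  cusp : ∀ y : ℝ, 0 < y → ∫ x in (0 : ℝ)..1, f ((x : ℂ) + (y : ℂ) * Complex.I) = 0
  norm : 3 / Real.pi * ∫ z in {z : ℂ | 0 < z.im ∧ |z.re| ≤ 1 / 2 ∧ 1 ≤ ‖z‖}, f z ^ 2 / z.im ^ 2 = 1
  hecke : ∀ n : ℕ, 1 ≤ n → ∃ c : ℝ, ∀ z : ℂ, 0 < z.im →
    ∑ d ∈ n.divisors, ∑ b ∈ Finset.range d, f ((((n / d : ℕ) : ℂ) * z + (b : ℂ)) / (d : ℂ)) = c * f z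

/-- some modular translate of `z₀` has height greater than `1 / (2 r)` -/
def Big (z₀ : ℍ) (r : ℝ) : Prop := ∃ g : SL(2, ℤ), 1 < 2 * r * (g • z₀).im

lemma cont {t : ℝ} {f : ℂ → ℝ} (hf : HeckeMaass t f) : Continuous fun z : ℍ => f z :=
  hf.smooth.continuousOn.comp_continuous UpperHalfPlane.continuous_coe fun z => z.im_pos

lemma good {t : ℝ} {f : ℂ → ℝ} (hf : HeckeMaass t f) : Good Pool.Agent.N889.SN.KK (fun z => (f z : ℂ)) := by
  have hinv : ∀ z : ℂ, 0 < z.im → ((f (z + 1) : ℝ) : ℂ) = (f z : ℂ) ∧ ((f (-z⁻¹) : ℝ) : ℂ) = (f z : ℂ) :=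
    fun z hz => by rw [(hf.inv z hz).1, (hf.inv z hz).2]; exact ⟨rfl, rfl⟩
  refine ⟨⟨fun z hz => (hinv z hz).1, fun p hp => ?_⟩, fun z hz => (hinv z hz).2⟩
  obtain ⟨c, hc⟩ := hf.hecke p hp.one_le
  have hc' : ∀ z : ℂ, 0 < z.im → (f (p * z) : ℂ) + ∑ b ∈ Finset.range p, (f ((z + b) / p) : ℂ) = (c : ℂ) * f z := by
    intro z hz
    have h1 := hc z hz
    rw [hp.divisors, Finset.sum_pair hp.one_lt.ne] at h1
    have h2 : f (p * z) + ∑ b ∈ Finset.range p, f ((z + b) / p) = c * f z := by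
      rw [← h1]
      simp [Nat.div_self hp.pos]
    exact_mod_cast h2
  refine ⟨c, ?_, hc'⟩
  have hm : Measurable (fun z : ℍ => ENNReal.ofReal (‖(f z : ℂ)‖ ^ 2)) := by
    refine (ENNReal.continuous_ofReal.comp (Continuous.pow ?_ 2)).measurable
    exact (Complex.continuous_ofReal.comp (cont hf)).norm
  have hint : ∫ z in {z : ℂ | 0 < z.im ∧ |z.re| ≤ 1 / 2 ∧ 1 ≤ ‖z‖}, ‖(f z : ℂ)‖ ^ 2 / z.im ^ 2 = Real.pi / 3 := by
    have h1 := hf.norm
    have hpi := Real.pi_pos
    have h2 : ∀ z : ℂ, ‖(f z : ℂ)‖ ^ 2 / z.im ^ 2 = f z ^ 2 / z.im ^ 2 := fun z => by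
      rw [Complex.norm_real, Real.norm_eq_abs, sq_abs]
    simp only [h2]
    generalize (∫ z in {z : ℂ | 0 < z.im ∧ |z.re| ≤ 1 / 2 ∧ 1 ≤ ‖z‖}, f z ^ 2 / z.im ^ 2) = I at h1 ⊢
    rw [div_mul_eq_mul_div, div_eq_one_iff_eq hpi.ne'] at h1
    linarith
  have h1 : ∫⁻ z in 𝒟, ENNReal.ofReal (‖(f (z : ℍ) : ℂ)‖ ^ 2) = ENNReal.ofReal (Real.pi / 3) := by
    rw [Pool.Agent.N889.SN.lint_eq (fun z => ENNReal.ofReal (‖(f z : ℂ)‖ ^ 2 / z.im ^ 2)) _ hm]
    · have hi : Integrable (fun z : ℂ => ‖(f z : ℂ)‖ ^ 2 / z.im ^ 2)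
          (volume.restrict {z : ℂ | 0 < z.im ∧ |z.re| ≤ 1 / 2 ∧ 1 ≤ ‖z‖}) := by
        by_contra hni
        rw [integral_undef hni] at hint
        have := Real.pi_pos
        linarith
      rw [← ofReal_integral_eq_lintegral_ofReal hi (Filter.Eventually.of_forall fun z => by positivity), hint]
    · intro z
      have hz := z.im_pos
      have e : (((1 / NNReal.mk z.im z.im_pos.le : NNReal) ^ 2 : NNReal) : ℝ≥0∞) = ENNReal.ofReal ((1 / z.im) ^ 2) := by
        rw [ENNReal.ofReal, ENNReal.coe_inj]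
        ext
        rw [Real.coe_toNNReal _ (by positivity)]
        simp
      rw [e, ← ENNReal.ofReal_mul (by positivity)]
      congr 1
      rw [UpperHalfPlane.coe_im]
      field_simp
  have e : Pool.Agent.N889.SN.KK p = (Pool.Agent.N889.SN.eig p hp).choose := by
    unfold Pool.Agent.N889.SN.KK
    rw [dif_pos hp]
  have hpi := Real.pi_pos
  rw [e]
  exact (Pool.Agent.N889.SN.eig p hp).choose_spec.2 (fun z => (f z : ℂ)) hm
    (fun g z => Pool.Agent.Results.MP_8fded1_nt.EllipticPointIsHarmless.invariance (U := fun z => (f z : ℂ)) hinv g z)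
    (by rw [h1]; simp; positivity) (by rw [h1]; exact ENNReal.ofReal_ne_top) c hc'

lemma isCompact_coe {Ω : Set ℍ} (hΩ : IsCompact Ω) : IsCompact ((fun z : ℍ => (z : ℂ)) '' Ω) :=
  hΩ.image UpperHalfPlane.continuous_coe

lemma coe_sub (Ω : Set ℍ) : (fun z : ℍ => (z : ℂ)) '' Ω ⊆ {z : ℂ | 0 < z.im} := by
  rintro _ ⟨z, -, rfl⟩
  exact z.im_pos

/-- part (1) -/
theorem one (z₀ : ℍ) (r : ℝ) (hr : Big z₀ r) (Ω : Set ℍ) (hΩ : IsCompact Ω) :
    ∃ C : ℝ, 0 < C ∧ ∃ M : ℕ, ∀ (t : ℝ) (f : ℂ → ℝ), HeckeMaass t f → ∀ φ : ℝ → ℝ≥0∞, Monotone φ → φ 0 = 0 →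
      ∫⁻ z in Ω, φ |f (z : ℍ)| ≤ M * ∫⁻ z in Metric.ball z₀ r, φ (C * |f (z : ℍ)|) := by
  obtain ⟨g, hg⟩ := hr
  obtain ⟨C, k, hC, h⟩ := Pool.Agent.U766.SN.disc2 Pool.Agent.N889.SN.KK Pool.Agent.N889.SN.KK_nonneg z₀ g r hg _
    (isCompact_coe hΩ) (coe_sub Ω)
  refine ⟨C, hC, (Pool.Agent.U766.SN.F k).card, fun t f hf φ hφ hφ0 => ?_⟩
  have hn : ∀ z : ℂ, ‖(f z : ℂ)‖ = |f z| := fun z => by rw [Complex.norm_real, Real.norm_eq_abs]
  have h1 := Pool.Agent.U766.SN.integ hΩ.isClosed.measurableSet h (good hf)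
    (by simp only [hn]; exact (cont hf).abs.measurable) φ hφ hφ0
  simpa only [hn] using h1

lemma cont_pow {t : ℝ} {f : ℂ → ℝ} (hf : HeckeMaass t f) {p : ℝ} (hp : 0 < p) :
    Continuous fun z : ℍ => |f z| ^ p :=
  (cont hf).abs.rpow_const fun _ => Or.inr hp.le

lemma int_compact {g : ℍ → ℝ} (hg : Continuous g) {Ω : Set ℍ} (hΩ : IsCompact Ω) : IntegrableOn g Ω :=
  hg.continuousOn.integrableOn_compact hΩ

lemma int_ball {g : ℍ → ℝ} (hg : Continuous g) (z₀ : ℍ) (r : ℝ) : IntegrableOn g (Metric.ball z₀ r) :=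
  (int_compact hg (isCompact_closedBall z₀ r)).mono_set Metric.ball_subset_closedBall

/-- part (2) -/
theorem two (z₀ : ℍ) (r : ℝ) (hr : Big z₀ r) (Ω : Set ℍ) (hΩ : IsCompact Ω) (p : ℝ) (hp : 0 < p) :
    ∃ C : ℝ, 0 < C ∧ ∀ (t : ℝ) (f : ℂ → ℝ), HeckeMaass t f →
      ∫ z in Ω, |f (z : ℍ)| ^ p ≤ C * ∫ z in Metric.ball z₀ r, |f (z : ℍ)| ^ p := by
  obtain ⟨C, hC, M, h⟩ := one z₀ r hr Ω hΩ
  refine ⟨(M + 1) * C ^ p, by positivity, fun t f hf => ?_⟩
  have h1 := h t f hf (fun x => ENNReal.ofReal ((max x 0) ^ p)) (fun x y hxy => by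
    refine ENNReal.ofReal_le_ofReal ?_
    gcongr) (by simp [Real.zero_rpow hp.ne'])
  have e1 : ∀ x : ℝ, max |x| 0 = |x| := fun x => max_eq_left (abs_nonneg x)
  have e2 : ∀ x : ℝ, max (C * |x|) 0 = C * |x| := fun x => max_eq_left (by positivity)
  simp only [e1, e2, Real.mul_rpow hC.le (abs_nonneg _)] at h1
  have hI := int_compact (cont_pow hf hp) hΩ
  have hJ := (int_ball (cont_pow hf hp) z₀ r).const_mul (C ^ p)
  rw [← ofReal_integral_eq_lintegral_ofReal hI (Eventually.of_forall fun z => by positivity),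
    ← ofReal_integral_eq_lintegral_ofReal hJ (Eventually.of_forall fun z => by positivity),
    integral_const_mul] at h1
  have hB : 0 ≤ ∫ z in Metric.ball z₀ r, |f (z : ℍ)| ^ p := integral_nonneg fun z => by positivity
  have h2 : ENNReal.ofReal (∫ z in Ω, |f (z : ℍ)| ^ p) ≤
      ENNReal.ofReal (M * (C ^ p * ∫ z in Metric.ball z₀ r, |f (z : ℍ)| ^ p)) := by
    rw [ENNReal.ofReal_mul (by positivity), ENNReal.ofReal_natCast]
    exact h1
  rw [ENNReal.ofReal_le_ofReal_iff (by positivity)] at h2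
  refine h2.trans ?_
  have : 0 ≤ C ^ p * ∫ z in Metric.ball z₀ r, |f (z : ℍ)| ^ p := by positivity
  nlinarith

/-- every disc of radius greater than `1 / √3` -/
theorem big_disc (z₀ : ℍ) (r : ℝ) (hr : 1 / √3 < r) : Big z₀ r := by
  obtain ⟨g, hg⟩ := ModularGroup.exists_smul_mem_fd z₀
  refine ⟨g, ?_⟩
  have h1 := ModularGroup.three_le_four_mul_im_sq_of_mem_fd hg
  have hy := (g • z₀).im_pos
  have h3 : (0 : ℝ) < √3 := by positivity
  have h4 : √3 ≤ 2 * (g • z₀).im := by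
    rw [Real.sqrt_le_left (by positivity)]
    nlinarith
  have h5 : 1 < r * √3 := by rwa [div_lt_iff₀ h3] at hr
  have hr0 : 0 < r := lt_trans (by positivity) hr
  nlinarith


/-! ### elementary estimates -/

section
variable {ι : Type} [Fintype ι]

/-- truncation -/
noncomputable def cl (B x : ℝ) : ℝ := max (-B) (min B x)

lemma cl_eq {B x : ℝ} (h : |x| ≤ B) : cl B x = x := by
  have h1 := abs_le.1 h
  unfold cl
  rw [min_eq_right h1.2, max_eq_right h1.1]

lemma cl_le {B : ℝ} (hB : 0 ≤ B) (x : ℝ) : |cl B x| ≤ B := by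
  unfold cl
  rw [abs_le]
  exact ⟨le_max_left _ _, max_le (by linarith) (min_le_left _ _)⟩

lemma cl_le' {B : ℝ} (hB : 0 ≤ B) (x : ℝ) : |cl B x| ≤ |x| := by
  rcases le_or_gt |x| B with h | h
  · rw [cl_eq h]
  · exact (cl_le hB x).trans h.le

lemma cl_cont (B : ℝ) : Continuous (cl B) := by
  unfold cl
  fun_prop

lemma prod_le (a : ι → ℕ) (x : ι → ℝ) (X : ℝ) (hx : ∀ i, |x i| ≤ X) : |∏ i, x i ^ a i| ≤ X ^ ∑ i, a i := by
  rw [Finset.abs_prod, ← Finset.prod_pow_eq_pow_sum]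
  refine Finset.prod_le_prod (fun i _ => abs_nonneg _) fun i _ => ?_
  rw [abs_pow]
  exact pow_le_pow_left₀ (abs_nonneg _) (hx i) _

lemma clip (B : ℝ) (hB : 1 ≤ B) (a : ι → ℕ) (N : ℕ) (ha : ∑ i, a i < N) (x : ι → ℝ) :
    |∏ i, x i ^ a i - ∏ i, (cl B (x i)) ^ a i| ≤ 2 / B * ∑ i, |x i| ^ N := by
  by_cases h : ∀ i, |x i| ≤ B
  · have : ∀ i, cl B (x i) = x i := fun i => cl_eq (h i)
    simp only [this, sub_self, abs_zero]
    positivity
  · push Not at h
    obtain ⟨i₀, hi₀⟩ := h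
    obtain ⟨j, -, hj⟩ := Finset.exists_max_image Finset.univ (fun i => |x i|) ⟨i₀, Finset.mem_univ _⟩
    have hj' : ∀ i, |x i| ≤ |x j| := fun i => hj i (Finset.mem_univ _)
    have hjB : B < |x j| := hi₀.trans_le (hj' i₀)
    have h1 := prod_le a x |x j| hj'
    have h2 := prod_le a (fun i => cl B (x i)) |x j| fun i => (cl_le' (by linarith) _).trans (hj' i)
    have h3 : |x j| ^ ∑ i, a i ≤ |x j| ^ N / B := by
      rw [le_div_iff₀ (by linarith)]
      calc |x j| ^ (∑ i, a i) * B ≤ |x j| ^ (∑ i, a i) * |x j| := by gcongr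
        _ = |x j| ^ (∑ i, a i + 1) := (pow_succ _ _).symm
        _ ≤ |x j| ^ N := pow_le_pow_right₀ (by linarith) ha
    have h4 : |x j| ^ N ≤ ∑ i, |x i| ^ N :=
      Finset.single_le_sum (f := fun i => |x i| ^ N) (fun i _ => by positivity) (Finset.mem_univ j)
    calc _ ≤ |∏ i, x i ^ a i| + |∏ i, (cl B (x i)) ^ a i| := abs_sub _ _
      _ ≤ |x j| ^ N / B + |x j| ^ N / B := add_le_add (h1.trans h3) (h2.trans h3)
      _ = 2 / B * |x j| ^ N := by ring
      _ ≤ _ := by gcongr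

lemma approx (u : ℕ → ℝ) (L K : ℝ) (h : ∀ B : ℝ, 1 ≤ B → ∃ (v : ℕ → ℝ) (l : ℝ), Tendsto v atTop (𝓝 l) ∧
    (∀ k, |u k - v k| ≤ K / B) ∧ |L - l| ≤ K / B) : Tendsto u atTop (𝓝 L) := by
  rw [Metric.tendsto_atTop]
  intro ε hε
  obtain ⟨B, hB, hKB⟩ : ∃ B : ℝ, 1 ≤ B ∧ K / B ≤ ε / 4 := by
    refine ⟨max 1 (4 * |K| / ε), le_max_left _ _, ?_⟩
    rw [div_le_iff₀ (lt_max_of_lt_left one_pos)]
    have h1 : 4 * |K| / ε ≤ max 1 (4 * |K| / ε) := le_max_right _ _
    calc K ≤ |K| := le_abs_self K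
      _ = ε / 4 * (4 * |K| / ε) := by field_simp
      _ ≤ _ := by gcongr
  obtain ⟨v, l, h1, h2, h3⟩ := h B hB
  rw [Metric.tendsto_atTop] at h1
  obtain ⟨N, hN⟩ := h1 (ε / 4) (by positivity)
  refine ⟨N, fun k hk => ?_⟩
  have h4 := hN k hk
  rw [Real.dist_eq] at h4 ⊢
  have h5 := abs_le.1 ((h2 k).trans hKB)
  have h6 := abs_le.1 (h3.trans hKB)
  have h7 := abs_lt.1 h4
  rw [abs_lt]
  constructor <;> linarith [h5.1, h5.2, h6.1, h6.2, h7.1, h7.2]

/-! ### the notions -/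

/-- **Q1 for the sequence `f k = (f k i)_i` of families**, with test functions in `C_c(ℍ)`: all joint
moments converge to those of independent standard Gaussian variables -/
def JointMoments (f : ℕ → ι → ℂ → ℝ) : Prop :=
  ∀ (a : ι → ℕ) (ψ : ℍ → ℝ), Continuous ψ → HasCompactSupport ψ →
    Tendsto (fun k => ∫ z : ℍ, ψ z * ∏ i, f k i z ^ a i) atTop (𝓝 ((∏ i, Cn (a i)) * ∫ z : ℍ, ψ z))

/-- the joint random wave law in the weak sense: bounded continuous functions of the values -/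
def JointLaw (f : ℕ → ι → ℂ → ℝ) : Prop :=
  ∀ ψ : ℍ → ℝ, Continuous ψ → HasCompactSupport ψ → ∀ g : (ι → ℝ) → ℝ, Continuous g → (∃ M, ∀ x, |g x| ≤ M) →
    Tendsto (fun k => ∫ z : ℍ, ψ z * g (fun i => f k i z)) atTop (𝓝 ((∫ x, g x ∂(gam ι)) * ∫ z : ℍ, ψ z))

/-- the characteristic functions converge -/
def CharLaw (f : ℕ → ι → ℂ → ℝ) : Prop :=
  ∀ ψ : ℍ → ℝ, Continuous ψ → HasCompactSupport ψ → ∀ c : ι → ℝ,
    Tendsto (fun k => ∫ z : ℍ, (ψ z : ℂ) * cexp (Complex.I * ((∑ i, c i * f k i z : ℝ) : ℂ))) atTop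
      (𝓝 (cexp ((-(∑ i, c i ^ 2) / 2 : ℝ) : ℂ) * ((∫ z : ℍ, ψ z : ℝ) : ℂ)))

/-- every linear combination `∑ c_i f_i` with `∑ c_i² = 1` follows the random wave law in the weak sense -/
def LinLaw (f : ℕ → ι → ℂ → ℝ) : Prop :=
  ∀ c : ι → ℝ, ∑ i, c i ^ 2 = 1 → ∀ ψ : ℍ → ℝ, Continuous ψ → HasCompactSupport ψ → ∀ g : ℝ → ℝ, Continuous g →
    (∃ M, ∀ x, |g x| ≤ M) →
    Tendsto (fun k => ∫ z : ℍ, ψ z * g (∑ i, c i * f k i z)) atTop
      (𝓝 ((∫ x, g x ∂(gaussianReal 0 1)) * ∫ z : ℍ, ψ z))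

/-- the moments of every linear combination `∑ c_i f_i` with `∑ c_i² = 1` converge to the Gaussian ones -/
def LinMoments (f : ℕ → ι → ℂ → ℝ) : Prop :=
  ∀ c : ι → ℝ, ∑ i, c i ^ 2 = 1 → ∀ (n : ℕ) (ψ : ℍ → ℝ), Continuous ψ → HasCompactSupport ψ →
    Tendsto (fun k => ∫ z : ℍ, ψ z * (∑ i, c i * f k i z) ^ n) atTop (𝓝 (Cn n * ∫ z : ℍ, ψ z))

/-- the moments of the single forms on the disc `D` with centre `z₀` and radius `r` are bounded -/
def Bdd (z₀ : ℍ) (r : ℝ) (f : ℕ → ι → ℂ → ℝ) : Prop :=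
  ∀ n : ℕ, ∃ A : ℝ, ∀ k i, ∫ z in Metric.ball z₀ r, |f k i (z : ℍ)| ^ n ≤ A

/-! ### from the law to the moments -/

/-- **From the weak law to the joint moments, degree by degree.** -/
theorem deg {t : ℕ → ι → ℝ} {f : ℕ → ι → ℂ → ℝ} (hf : ∀ k i, HeckeMaass (t k i) (f k i)) (z₀ : ℍ) (r : ℝ)
    (hr : Big z₀ r) (hlaw : JointLaw f) (N : ℕ)
    (hN : ∃ A : ℝ, ∀ k i, ∫ z in Metric.ball z₀ r, |f k i (z : ℍ)| ^ N ≤ A) (a : ι → ℕ) (ha : ∑ i, a i < N)
    (ψ : ℍ → ℝ) (hψ : Continuous ψ) (hψc : HasCompactSupport ψ) :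
    Tendsto (fun k => ∫ z : ℍ, ψ z * ∏ i, f k i z ^ a i) atTop (𝓝 ((∏ i, Cn (a i)) * ∫ z : ℍ, ψ z)) := by
  have hS : IsCompact (tsupport ψ) := hψc
  obtain ⟨Ψ, hΨ⟩ := hψc.exists_bound_of_continuous hψ
  have hN0 : 0 < N := by omega
  have hN1 : (0 : ℝ) < (N : ℝ) := by exact_mod_cast hN0
  obtain ⟨C, hC, h2⟩ := two z₀ r hr _ hS (N : ℝ) hN1
  obtain ⟨A, hA⟩ := hN
  have hA' : ∀ k i, ∫ z in tsupport ψ, |f k i (z : ℍ)| ^ N ≤ C * |A| := by
    intro k i
    have h3 := h2 (t k i) (f k i) (hf k i)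
    simp only [Real.rpow_natCast] at h3
    exact h3.trans (mul_le_mul_of_nonneg_left ((hA k i).trans (le_abs_self A)) hC.le)
  have hgi : ∀ i : ι, Integrable (fun x : ι → ℝ => |x i| ^ N) (gam ι) := fun i =>
    Pool.Agent.U14.JM.int_coord (fun y => |y| ^ N) (Pool.Agent.U14.JM.int_abs N) i
  obtain ⟨Gm, hGm⟩ : ∃ Gm : ℝ, Gm = ∑ i : ι, ∫ x : ι → ℝ, |x i| ^ N ∂(gam ι) := ⟨_, rfl⟩
  have hG0 : 0 ≤ Gm := by
    rw [hGm]
    exact Finset.sum_nonneg fun i _ => integral_nonneg fun x => by positivity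
  have hp1 : ∀ x : ι → ℝ, ∀ B : ℝ, 0 ≤ B → |∏ i, (cl B (x i)) ^ a i| ≤ B ^ ∑ i, a i := fun x B hB =>
    prod_le a (fun i => cl B (x i)) B fun i => cl_le hB _
  have hcc : ∀ B : ℝ, Continuous fun x : ι → ℝ => ∏ i, (cl B (x i)) ^ a i := fun B =>
    continuous_finsetProd _ fun i _ => ((cl_cont B).comp (continuous_apply i)).pow _
  refine approx _ _ (2 * (|Ψ| * (Fintype.card ι * (C * |A|))) + 2 * (Gm * |∫ z : ℍ, ψ z|)) fun B hB => ?_
  have hB0 : 0 < B := by linarith
  refine ⟨fun k => ∫ z : ℍ, ψ z * ∏ i, (cl B (f k i z)) ^ a i,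
    (∫ x : ι → ℝ, ∏ i, (cl B (x i)) ^ a i ∂(gam ι)) * ∫ z : ℍ, ψ z,
    hlaw ψ hψ hψc (fun x => ∏ i, (cl B (x i)) ^ a i) (hcc B) ⟨_, fun x => hp1 x B hB0.le⟩, fun k => ?_, ?_⟩
  · have c1 : Continuous fun z : ℍ => ψ z * ∏ i, f k i z ^ a i :=
      hψ.mul (continuous_finsetProd _ fun i _ => (cont (hf k i)).pow _)
    have c2 : Continuous fun z : ℍ => ψ z * ∏ i, (cl B (f k i z)) ^ a i :=
      hψ.mul ((hcc B).comp (continuous_pi fun i => cont (hf k i)))
    have i1 : Integrable fun z : ℍ => ψ z * ∏ i, f k i z ^ a i :=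
      c1.integrable_of_hasCompactSupport hψc.mul_right
    have i2 : Integrable fun z : ℍ => ψ z * ∏ i, (cl B (f k i z)) ^ a i :=
      c2.integrable_of_hasCompactSupport hψc.mul_right
    rw [← integral_sub i1 i2]
    have e : ∫ z : ℍ, (ψ z * ∏ i, f k i z ^ a i - ψ z * ∏ i, (cl B (f k i z)) ^ a i) =
        ∫ z in tsupport ψ, (ψ z * ∏ i, f k i z ^ a i - ψ z * ∏ i, (cl B (f k i z)) ^ a i) := by
      rw [setIntegral_eq_integral_of_forall_compl_eq_zero]
      intro z hz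
      rw [image_eq_zero_of_notMem_tsupport hz]
      ring
    rw [e, ← Real.norm_eq_abs]
    have c3 : ∀ i, Continuous fun z : ℍ => |f k i z| ^ N := fun i => (cont (hf k i)).abs.pow _
    have i3 : IntegrableOn (fun z : ℍ => 2 / B * |Ψ| * ∑ i, |f k i z| ^ N) (tsupport ψ) :=
      int_compact (continuous_const.mul (continuous_finsetSum _ fun i _ => c3 i)) hS
    refine (norm_integral_le_of_norm_le i3 (Eventually.of_forall fun z => ?_)).trans ?_
    · rw [← mul_sub, norm_mul, Real.norm_eq_abs (_ - _)]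
      calc ‖ψ z‖ * |∏ i, f k i z ^ a i - ∏ i, (cl B (f k i z)) ^ a i|
          ≤ |Ψ| * (2 / B * ∑ i, |f k i z| ^ N) := by
            gcongr
            · exact (hΨ z).trans (le_abs_self _)
            · exact clip B hB a N ha _
        _ = _ := by ring
    · rw [integral_const_mul, integral_finsetSum _ fun i _ => int_compact (c3 i) hS]
      have h5 : ∑ i, ∫ z in tsupport ψ, |f k i (z : ℍ)| ^ N ≤ Fintype.card ι * (C * |A|) := by
        refine (Finset.sum_le_sum fun i _ => hA' k i).trans ?_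
        rw [Finset.sum_const, nsmul_eq_mul, Finset.card_univ]
      calc 2 / B * |Ψ| * ∑ i, ∫ z in tsupport ψ, |f k i (z : ℍ)| ^ N
          ≤ 2 / B * |Ψ| * (Fintype.card ι * (C * |A|)) := by gcongr
        _ = (2 * (|Ψ| * (Fintype.card ι * (C * |A|)))) / B := by ring
        _ ≤ _ := by
            gcongr
            have : 0 ≤ 2 * (Gm * |∫ z : ℍ, ψ z|) := by positivity
            linarith
  · have i1 : Integrable (fun x : ι → ℝ => ∏ i, x i ^ a i) (gam ι) :=
      Pool.Agent.U14.JM.integrable_prod (fun i y => y ^ a i) fun i => Pool.Agent.U14.JM.int_pow _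
    have i2 : Integrable (fun x : ι → ℝ => ∏ i, (cl B (x i)) ^ a i) (gam ι) :=
      (integrable_const (B ^ ∑ i, a i)).mono' (hcc B).aestronglyMeasurable
        (Eventually.of_forall fun x => by rw [Real.norm_eq_abs]; exact hp1 x B hB0.le)
    have e1 : ∏ i, Cn (a i) = ∫ x : ι → ℝ, ∏ i, x i ^ a i ∂(gam ι) :=
      (Pool.Agent.U14.JM.integral_prod (fun i y => y ^ a i)).symm
    rw [e1, ← sub_mul, abs_mul, ← integral_sub i1 i2]
    have h3 : |∫ x : ι → ℝ, (∏ i, x i ^ a i - ∏ i, (cl B (x i)) ^ a i) ∂(gam ι)| ≤ 2 / B * Gm := by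
      rw [hGm, ← integral_finsetSum _ fun i _ => hgi i, ← integral_const_mul, ← Real.norm_eq_abs]
      refine norm_integral_le_of_norm_le ((integrable_finsetSum _ fun i _ => hgi i).const_mul _)
        (Eventually.of_forall fun x => ?_)
      rw [Real.norm_eq_abs]
      exact clip B hB a N ha x
    calc _ ≤ 2 / B * Gm * |∫ z : ℍ, ψ z| := by gcongr
      _ = (2 * (Gm * |∫ z : ℍ, ψ z|)) / B := by ring
      _ ≤ _ := by
          gcongr
          have : 0 ≤ 2 * (|Ψ| * (Fintype.card ι * (C * |A|))) := by positivity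
          linarith

end

/-! ### from the moments to the law -/

section
variable {ι : Type} [Fintype ι]

/-- the measure `ψ dμ` -/
lemma exists_nu (ψ : ℍ → ℝ) (hψ : Continuous ψ) (hψc : HasCompactSupport ψ) (hψ0 : ∀ z, 0 ≤ ψ z) :
    ∃ ν : Measure ℍ, IsFiniteMeasure ν ∧ ν.real Set.univ = ∫ z : ℍ, ψ z ∧
      (∀ F : ℍ → ℝ, ∫ z, F z ∂ν = ∫ z : ℍ, ψ z * F z) ∧
      (∀ F : ℍ → ℂ, ∫ z, F z ∂ν = ∫ z : ℍ, (ψ z : ℂ) * F z) ∧
      ∀ F : ℍ → ℝ, Integrable (fun z : ℍ => ψ z * F z) → Integrable F ν := by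
  have hI : Integrable ψ := hψ.integrable_of_hasCompactSupport hψc
  set q : ℍ → NNReal := fun z => Real.toNNReal (ψ z) with hq
  have hqm : Measurable q := hψ.measurable.real_toNNReal
  have hqc : ∀ z, ((q z : NNReal) : ℝ) = ψ z := fun z => Real.coe_toNNReal _ (hψ0 z)
  set ν : Measure ℍ := volume.withDensity fun z => (q z : ℝ≥0∞) with hν
  have hint : ∀ F : ℍ → ℝ, ∫ z, F z ∂ν = ∫ z, ψ z * F z := by
    intro F
    rw [hν, integral_withDensity_eq_integral_smul hqm]
    refine integral_congr_ae (Eventually.of_forall fun z => ?_)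
    simp only
    rw [NNReal.smul_def, hqc, smul_eq_mul]
  have hint2 : ∀ F : ℍ → ℂ, ∫ z, F z ∂ν = ∫ z, (ψ z : ℂ) * F z := by
    intro F
    rw [hν, integral_withDensity_eq_integral_smul hqm]
    refine integral_congr_ae (Eventually.of_forall fun z => ?_)
    simp only
    rw [NNReal.smul_def, hqc, Complex.real_smul]
  have hint' : ∀ F : ℍ → ℝ, Integrable (fun z => ψ z * F z) → Integrable F ν := by
    intro F hF
    rw [hν, integrable_withDensity_iff_integrable_smul hqm]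
    refine hF.congr (Eventually.of_forall fun z => ?_)
    simp only
    rw [NNReal.smul_def, hqc, smul_eq_mul]
  have hfin : IsFiniteMeasure ν := by
    rw [hν]
    refine isFiniteMeasure_withDensity ?_
    have e : ∀ z, (q z : ℝ≥0∞) = ENNReal.ofReal (ψ z) := fun z => rfl
    simp only [e]
    rw [← ofReal_integral_eq_lintegral_ofReal hI (Eventually.of_forall hψ0)]
    exact ENNReal.ofReal_ne_top
  have htot : ν.real Set.univ = ∫ z : ℍ, ψ z := by
    have h1 := hint fun _ => 1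
    simp only [integral_const, smul_eq_mul, mul_one] at h1
    exact h1
  exact ⟨ν, hfin, htot, hint, hint2, hint'⟩

/-- positive and negative parts of the test function -/
lemma split {E : Type} [NormedAddCommGroup E] [NormedSpace ℝ E] (G : ℕ → ℍ → E) (hG : ∀ k, Continuous (G k)) (w : E)
    (h : ∀ ψ : ℍ → ℝ, Continuous ψ → HasCompactSupport ψ → (∀ z, 0 ≤ ψ z) →
      Tendsto (fun k => ∫ z : ℍ, ψ z • G k z) atTop (𝓝 ((∫ z : ℍ, ψ z) • w)))
    (ψ : ℍ → ℝ) (hψ : Continuous ψ) (hψc : HasCompactSupport ψ) :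
    Tendsto (fun k => ∫ z : ℍ, ψ z • G k z) atTop (𝓝 ((∫ z : ℍ, ψ z) • w)) := by
  have c1 : Continuous fun z => max (ψ z) 0 := hψ.max continuous_const
  have c2 : Continuous fun z => max (-ψ z) 0 := hψ.neg.max continuous_const
  have s1 : HasCompactSupport fun z => max (ψ z) 0 := hψc.comp_left (g := fun x => max x 0) (by simp)
  have s2 : HasCompactSupport fun z => max (-ψ z) 0 := hψc.comp_left (g := fun x => max (-x) 0) (by simp)
  have w1 := h _ c1 s1 fun z => le_max_right _ _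
  have w2 := h _ c2 s2 fun z => le_max_right _ _
  have e : ∀ x : ℝ, x = max x 0 - max (-x) 0 := fun x => by
    rcases le_total 0 x with hx | hx
    · rw [max_eq_left hx, max_eq_right (by linarith), sub_zero]
    · rw [max_eq_right hx, max_eq_left (by linarith)]
      ring
  have w3 := w1.sub w2
  have e1 : ∀ k, (∫ z : ℍ, max (ψ z) 0 • G k z) - ∫ z : ℍ, max (-ψ z) 0 • G k z = ∫ z : ℍ, ψ z • G k z := by
    intro k
    have i1 : Integrable fun z : ℍ => max (ψ z) 0 • G k z :=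
      (c1.smul (hG k)).integrable_of_hasCompactSupport s1.smul_right
    have i2 : Integrable fun z : ℍ => max (-ψ z) 0 • G k z :=
      (c2.smul (hG k)).integrable_of_hasCompactSupport s2.smul_right
    rw [← integral_sub i1 i2]
    refine integral_congr_ae (Eventually.of_forall fun z => ?_)
    simp only
    rw [← sub_smul, ← e]
  have e2 : (∫ z : ℍ, max (ψ z) 0) - ∫ z : ℍ, max (-ψ z) 0 = ∫ z : ℍ, ψ z := by
    rw [← integral_sub (c1.integrable_of_hasCompactSupport s1) (c2.integrable_of_hasCompactSupport s2)]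
    refine integral_congr_ae (Eventually.of_forall fun z => ?_)
    simp only
    rw [← e]
  rw [← sub_smul, e2] at w3
  exact w3.congr e1

variable {t : ℕ → ι → ℝ} {f : ℕ → ι → ℂ → ℝ}

lemma cont_lin (hf : ∀ k i, HeckeMaass (t k i) (f k i)) (c : ι → ℝ) (k : ℕ) :
    Continuous fun z : ℍ => ∑ i, c i * f k i z :=
  continuous_finsetSum _ fun i _ => continuous_const.mul (cont (hf k i))

omit [Fintype ι] in
lemma cont_vec (hf : ∀ k i, HeckeMaass (t k i) (f k i)) (k : ℕ) :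
    Continuous fun z : ℍ => fun i => f k i z :=
  continuous_pi fun i => cont (hf k i)

/-- joint moments give the moments of the linear combinations -/
lemma lin_of_joint (hf : ∀ k i, HeckeMaass (t k i) (f k i)) (h : JointMoments f) : LinMoments f := by
  classical
  intro c hc n ψ hψ hψc
  have e : ∀ k, ∫ z : ℍ, ψ z * (∑ i, c i * f k i z) ^ n =
      ∑ a ∈ Finset.piAntidiag Finset.univ n, ((Nat.multinomial Finset.univ a : ℝ) * ∏ i, c i ^ a i) *
        ∫ z : ℍ, ψ z * ∏ i, f k i z ^ a i := by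
    intro k
    have e1 : ∀ z : ℍ, ψ z * (∑ i, c i * f k i z) ^ n =
        ∑ a ∈ Finset.piAntidiag Finset.univ n, ((Nat.multinomial Finset.univ a : ℝ) * ∏ i, c i ^ a i) *
          (ψ z * ∏ i, f k i z ^ a i) := by
      intro z
      rw [Pool.Agent.U14.JM.sum_pow_eq, Finset.mul_sum]
      refine Finset.sum_congr rfl fun a _ => ?_
      ring
    simp only [e1]
    rw [integral_finsetSum]
    · refine Finset.sum_congr rfl fun a _ => ?_
      rw [integral_const_mul]
    · intro a _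
      refine Integrable.const_mul ?_ _
      exact (hψ.mul (continuous_finsetProd _ fun i _ => (cont (hf k i)).pow _)).integrable_of_hasCompactSupport
        hψc.mul_right
  simp only [e]
  rw [← Pool.Agent.U14.JM.lin_moment c hc n, Finset.sum_mul]
  refine tendsto_finsetSum _ fun a _ => ?_
  rw [mul_assoc]
  exact (h a ψ hψ hψc).const_mul _

/-- moments of the linear combinations give the characteristic functions -/
lemma char_of_lin (hf : ∀ k i, HeckeMaass (t k i) (f k i)) (h : LinMoments f) : CharLaw f := by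
  intro ψ hψ hψc c
  have hG : ∀ k, Continuous fun z : ℍ => cexp (Complex.I * ((∑ i, c i * f k i z : ℝ) : ℂ)) := fun k => by
    have := cont_lin hf c k
    fun_prop
  have key := split (fun k z => cexp (Complex.I * ((∑ i, c i * f k i z : ℝ) : ℂ))) hG
    (cexp ((-(∑ i, c i ^ 2) / 2 : ℝ) : ℂ)) (fun ψ hψ hψc hψ0 => ?_) ψ hψ hψc
  · simp only [Complex.real_smul] at key
    rw [mul_comm] at key
    exact key
  · simp only [Complex.real_smul]
    obtain ⟨ν, hfin, htot, hint, hint2, hint'⟩ := exists_nu ψ hψ hψc hψ0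
    have hs0 : 0 ≤ ∑ i, c i ^ 2 := Finset.sum_nonneg fun i _ => sq_nonneg _
    rcases hs0.eq_or_lt with hs | hs
    · have hc : ∀ i, c i = 0 := fun i => by
        have := (Finset.sum_eq_zero_iff_of_nonneg fun i _ => sq_nonneg (c i)).1 hs.symm i (Finset.mem_univ i)
        exact pow_eq_zero_iff (two_ne_zero) |>.1 this
      simp only [hc]
      simp only [zero_mul, Finset.sum_const_zero, Complex.ofReal_zero, mul_zero, Complex.exp_zero, mul_one,
        ne_eq, OfNat.ofNat_ne_zero, not_false_eq_true, zero_pow, neg_zero, zero_div]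
      rw [integral_complex_ofReal]
      exact tendsto_const_nhds
    · set s := √(∑ i, c i ^ 2) with hsd
      have hs' : 0 < s := Real.sqrt_pos.2 hs
      have hss : s ^ 2 = ∑ i, c i ^ 2 := Real.sq_sqrt hs0
      have hc1 : ∑ i, (c i / s) ^ 2 = 1 := by
        simp only [div_pow]
        rw [← Finset.sum_div, ← hss, div_self (by positivity)]
      have hm : Pool.Agent.U766.SN.GM.Hm ν (fun k z => ∑ i, c i / s * f k i z) (∫ z : ℍ, ψ z) :=
        ⟨hfin, htot, fun k => (cont_lin hf _ k).measurable, fun k n =>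
          hint' _ ((hψ.mul ((cont_lin hf _ k).pow n)).integrable_of_hasCompactSupport hψc.mul_right), fun n => by
          have h1 := h _ hc1 n ψ hψ hψc
          simp only [hint]
          rw [← Pool.Agent.U14.JM.Cn_eq_gm n, mul_comm]
          exact h1⟩
      have h1 := Pool.Agent.U766.SN.GM.char_lim hm s
      simp only [hint2] at h1
      have e1 : ∀ k (z : ℍ), s * ∑ i, c i / s * f k i z = ∑ i, c i * f k i z := by
        intro k z
        rw [Finset.mul_sum]
        refine Finset.sum_congr rfl fun i _ => ?_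
        field_simp
      simp only [e1, hss] at h1
      exact h1

/-- moments of the linear combinations bound the moments of the forms -/
lemma bdd_of_lin (hf : ∀ k i, HeckeMaass (t k i) (f k i)) (h : LinMoments f) (z₀ : ℍ) (r : ℝ) : Bdd z₀ r f := by
  classical
  intro n
  obtain ⟨ψ, hψ1, -, hψc, hψ0⟩ := exists_continuous_one_zero_of_isCompact (isCompact_closedBall z₀ r)
    (isClosed_empty (X := ℍ)) (Set.disjoint_empty _)
  have hA : ∀ i, ∃ A : ℝ, 0 ≤ A ∧ ∀ k, ∫ z : ℍ, ψ z * f k i z ^ (2 * n) ≤ A := by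
    intro i
    have h1 := h (Pi.single i 1) (by simp [Pi.single_apply]) (2 * n) ψ ψ.continuous hψc
    obtain ⟨A, hA⟩ := h1.bddAbove_range
    refine ⟨|A|, abs_nonneg _, fun k => le_trans (hA ⟨k, ?_⟩) (le_abs_self A)⟩
    simp [Pi.single_apply]
  choose A hA0 hA using hA
  refine ⟨(∫ z in Metric.ball z₀ r, (1 : ℝ)) + ∑ i, A i, fun k i => ?_⟩
  have hA' : ∀ k, ∫ z : ℍ, ψ z * f k i z ^ (2 * n) ≤ ∑ i, A i := fun k =>
    (hA i k).trans (Finset.single_le_sum (fun j _ => hA0 j) (Finset.mem_univ i))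
  have e1 : Even (2 * n) := even_two_mul n
  have c3 : Continuous fun z : ℍ => f k i z ^ (2 * n) := (cont (hf k i)).pow _
  have hI : Integrable fun z : ℍ => ψ z * f k i z ^ (2 * n) :=
    (ψ.continuous.mul c3).integrable_of_hasCompactSupport hψc.mul_right
  have h2 : ∫ z in Metric.ball z₀ r, f k i (z : ℍ) ^ (2 * n) ≤ ∑ i, A i := by
    refine le_trans ?_ (hA' k)
    calc ∫ z in Metric.ball z₀ r, f k i (z : ℍ) ^ (2 * n) = ∫ z in Metric.ball z₀ r, ψ z * f k i (z : ℍ) ^ (2 * n) := by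
          refine setIntegral_congr_fun Metric.isOpen_ball.measurableSet fun z hz => ?_
          rw [hψ1 (Metric.ball_subset_closedBall hz)]
          simp
      _ ≤ ∫ z : ℍ, ψ z * f k i (z : ℍ) ^ (2 * n) :=
          setIntegral_le_integral hI (Eventually.of_forall fun z => mul_nonneg (hψ0 z).1 (e1.pow_nonneg _))
  have hk : Continuous fun z : ℍ => |f k i z| ^ n := (cont (hf k i)).abs.pow _
  calc ∫ z in Metric.ball z₀ r, |f k i (z : ℍ)| ^ n
      ≤ ∫ z in Metric.ball z₀ r, ((1 : ℝ) + f k i (z : ℍ) ^ (2 * n)) := by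
        refine setIntegral_mono_on (int_ball hk z₀ r) ((int_ball continuous_const z₀ r).add (int_ball c3 z₀ r))
          Metric.isOpen_ball.measurableSet fun z _ => ?_
        have e2 : f k i z ^ (2 * n) = (|f k i z| ^ n) ^ 2 := by
          rw [← pow_mul, mul_comm n 2, e1.pow_abs]
        rw [e2]
        nlinarith [sq_nonneg (|f k i z| ^ n - 1)]
    _ = (∫ z in Metric.ball z₀ r, (1 : ℝ)) + ∫ z in Metric.ball z₀ r, f k i (z : ℍ) ^ (2 * n) :=
        integral_add (int_ball continuous_const z₀ r) (int_ball c3 z₀ r)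
    _ ≤ _ := by linarith

/-- characteristic functions give the joint law -/
lemma joint_of_char (hf : ∀ k i, HeckeMaass (t k i) (f k i)) (h : CharLaw f) : JointLaw f := by
  intro ψ hψ hψc g hg hb
  have hG : ∀ k, Continuous fun z : ℍ => g fun i => f k i z := fun k => hg.comp (cont_vec hf k)
  have key := split (fun k z => g fun i => f k i z) hG (∫ x, g x ∂(gam ι)) (fun ψ hψ hψc hψ0 => ?_) ψ hψ hψc
  · simp only [smul_eq_mul] at key
    rw [mul_comm] at key
    exact key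
  · simp only [smul_eq_mul]
    obtain ⟨ν, hfin, htot, hint, hint2, hint'⟩ := exists_nu ψ hψ hψc hψ0
    rcases (integral_nonneg hψ0 : 0 ≤ ∫ z : ℍ, ψ z).eq_or_lt with hZ | hZ
    · rw [← hZ, zero_mul]
      have hν : ν = 0 := by
        rw [← hZ] at htot
        exact Measure.measure_univ_eq_zero.1 ((measureReal_eq_zero_iff).1 htot)
      have h0 : ∀ k, ∫ z : ℍ, ψ z * g (fun i => f k i z) = 0 := fun k => by
        rw [← hint, hν, integral_zero_measure]
      simp only [h0]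
      exact tendsto_const_nhds
    · have h1 := Pool.Agent.U14.JM.levy ν (fun k z i => f k i z) (fun k => (cont_vec hf k).measurable)
        (by rw [htot]; exact hZ) (fun c => by
          have h2 := h ψ hψ hψc c
          simp only [hint2]
          rw [htot, mul_comm]
          exact h2) g hg hb
      simp only [hint] at h1
      rw [htot] at h1
      exact h1

/-- the joint law gives the law of the linear combinations -/
lemma linlaw_of_joint (h : JointLaw f) : LinLaw f := by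
  intro c hc ψ hψ hψc g hg hb
  obtain ⟨M, hM⟩ := hb
  have hl : Continuous fun x : ι → ℝ => ∑ i, c i * x i := by fun_prop
  have h1 := h ψ hψ hψc (fun x => g (∑ i, c i * x i)) (hg.comp hl) ⟨M, fun x => hM _⟩
  rw [Pool.Agent.U14.JM.lin_int c hc g hg] at h1
  exact h1

/-- the law of the linear combinations gives the characteristic functions -/
lemma char_of_linlaw (hf : ∀ k i, HeckeMaass (t k i) (f k i)) (h : LinLaw f) : CharLaw f := by
  intro ψ hψ hψc c
  have hs0 : 0 ≤ ∑ i, c i ^ 2 := Finset.sum_nonneg fun i _ => sq_nonneg _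
  rcases hs0.eq_or_lt with hs | hs
  · have hc : ∀ i, c i = 0 := fun i => by
      have := (Finset.sum_eq_zero_iff_of_nonneg fun i _ => sq_nonneg (c i)).1 hs.symm i (Finset.mem_univ i)
      exact pow_eq_zero_iff (two_ne_zero) |>.1 this
    simp only [hc]
    simp only [zero_mul, Finset.sum_const_zero, Complex.ofReal_zero, mul_zero, Complex.exp_zero, mul_one,
      ne_eq, OfNat.ofNat_ne_zero, not_false_eq_true, zero_pow, neg_zero, zero_div, one_mul]
    rw [integral_complex_ofReal]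
    exact tendsto_const_nhds
  · set s := √(∑ i, c i ^ 2) with hsd
    have hs' : 0 < s := Real.sqrt_pos.2 hs
    have hss : s ^ 2 = ∑ i, c i ^ 2 := Real.sq_sqrt hs0
    have hc1 : ∑ i, (c i / s) ^ 2 = 1 := by
      simp only [div_pow]
      rw [← Finset.sum_div, ← hss, div_self (by positivity)]
    have h1 := h _ hc1 ψ hψ hψc (fun x => Real.cos (s * x)) (by fun_prop) ⟨1, fun x => Real.abs_cos_le_one _⟩
    have h2 := h _ hc1 ψ hψ hψc (fun x => Real.sin (s * x)) (by fun_prop) ⟨1, fun x => Real.abs_sin_le_one _⟩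
    have e1 : ∀ k (z : ℍ), s * ∑ i, c i / s * f k i z = ∑ i, c i * f k i z := by
      intro k z
      rw [Finset.mul_sum]
      refine Finset.sum_congr rfl fun i _ => ?_
      field_simp
    simp only [e1] at h1 h2
    have h3 := ((Complex.continuous_ofReal.tendsto _).comp h1).add
      (((Complex.continuous_ofReal.tendsto _).comp h2).mul_const Complex.I)
    have hcos : Integrable (fun x : ℝ => Real.cos (s * x)) (gaussianReal 0 1) :=
      (integrable_const (1 : ℝ)).mono' (Continuous.aestronglyMeasurable (by fun_prop))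
        (Eventually.of_forall fun x => by rw [Real.norm_eq_abs]; exact Real.abs_cos_le_one _)
    have hsin : Integrable (fun x : ℝ => Real.sin (s * x)) (gaussianReal 0 1) :=
      (integrable_const (1 : ℝ)).mono' (Continuous.aestronglyMeasurable (by fun_prop))
        (Eventually.of_forall fun x => by rw [Real.norm_eq_abs]; exact Real.abs_sin_le_one _)
    have e2 : (((∫ x, Real.cos (s * x) ∂(gaussianReal 0 1) : ℝ) : ℂ) +
        ((∫ x, Real.sin (s * x) ∂(gaussianReal 0 1) : ℝ) : ℂ) * Complex.I) =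
        cexp ((-(∑ i, c i ^ 2) / 2 : ℝ) : ℂ) := by
      have h4 : charFun (gaussianReal 0 1) s = cexp ((-(∑ i, c i ^ 2) / 2 : ℝ) : ℂ) := by
        rw [charFun_gaussianReal, ← hss]
        congr 1
        push_cast
        ring
      rw [← h4, charFun_apply_real, ← integral_complex_ofReal, ← integral_complex_ofReal, ← integral_mul_const,
        ← integral_add hcos.ofReal (hsin.ofReal.mul_const _)]
      refine integral_congr_ae (Eventually.of_forall fun x => ?_)
      simp only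
      rw [← Complex.ofReal_mul, Complex.exp_mul_I]
      simp
    have e3 : ∀ k, (((∫ z : ℍ, ψ z * Real.cos (∑ i, c i * f k i z) : ℝ) : ℂ) +
        ((∫ z : ℍ, ψ z * Real.sin (∑ i, c i * f k i z) : ℝ) : ℂ) * Complex.I) =
        ∫ z : ℍ, (ψ z : ℂ) * cexp (Complex.I * ((∑ i, c i * f k i z : ℝ) : ℂ)) := by
      intro k
      have j1 : Integrable fun z : ℍ => ψ z * Real.cos (∑ i, c i * f k i z) :=
        (hψ.mul (Real.continuous_cos.comp (cont_lin hf c k))).integrable_of_hasCompactSupport hψc.mul_right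
      have j2 : Integrable fun z : ℍ => ψ z * Real.sin (∑ i, c i * f k i z) :=
        (hψ.mul (Real.continuous_sin.comp (cont_lin hf c k))).integrable_of_hasCompactSupport hψc.mul_right
      rw [← integral_complex_ofReal, ← integral_complex_ofReal, ← integral_mul_const,
        ← integral_add j1.ofReal (j2.ofReal.mul_const _)]
      refine integral_congr_ae (Eventually.of_forall fun z => ?_)
      simp only
      rw [mul_comm Complex.I, Complex.exp_mul_I]
      push_cast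
      ring
    have e4 : (((∫ x, Real.cos (s * x) ∂(gaussianReal 0 1)) * ∫ z : ℍ, ψ z : ℝ) : ℂ) +
        (((∫ x, Real.sin (s * x) ∂(gaussianReal 0 1)) * ∫ z : ℍ, ψ z : ℝ) : ℂ) * Complex.I =
        cexp ((-(∑ i, c i ^ 2) / 2 : ℝ) : ℂ) * ((∫ z : ℍ, ψ z : ℝ) : ℂ) := by
      rw [← e2]
      push_cast
      ring
    rw [e4] at h3
    exact h3.congr e3

/-- **The equivalences for a sequence of families.** -/
theorem equiv (hf : ∀ k i, HeckeMaass (t k i) (f k i)) (z₀ : ℍ) (r : ℝ) (hr : Big z₀ r) :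
    List.TFAE [JointMoments f, LinMoments f, JointLaw f ∧ Bdd z₀ r f, LinLaw f ∧ Bdd z₀ r f,
      CharLaw f ∧ Bdd z₀ r f] := by
  tfae_have 1 → 2 := lin_of_joint hf
  tfae_have 2 → 5 := fun h => ⟨char_of_lin hf h, bdd_of_lin hf h z₀ r⟩
  tfae_have 5 → 3 := fun h => ⟨joint_of_char hf h.1, h.2⟩
  tfae_have 3 → 4 := fun h => ⟨linlaw_of_joint h.1, h.2⟩
  tfae_have 4 → 5 := fun h => ⟨char_of_linlaw hf h.1, h.2⟩
  tfae_have 3 → 1 := fun h a ψ hψ hψc =>
    deg hf z₀ r hr h.1 (∑ i, a i + 1) (h.2 _) a (Nat.lt_succ_self _) ψ hψ hψc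
  tfae_finish

end

/-! ### the question Q1 -/

/-- an orthogonal family of Hecke-Maass forms; the integral is over the standard fundamental domain -/
structure Family {ι : Type} (t : ι → ℝ) (f : ι → ℂ → ℝ) : Prop where
  form : ∀ i, HeckeMaass (t i) (f i)
  orth : ∀ i j, i ≠ j → ∫ z in {z : ℂ | 0 < z.im ∧ |z.re| ≤ 1 / 2 ∧ 1 ≤ ‖z‖}, f i z * f j z / z.im ^ 2 = 0

/-- a sequence of orthogonal families all of whose spectral parameters tend to infinity -/
structure Seq {ι : Type} (t : ℕ → ι → ℝ) (f : ℕ → ι → ℂ → ℝ) : Prop where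
  fam : ∀ k, Family (t k) (f k)
  lim : ∀ i, Tendsto (fun k => t k i) atTop atTop

/-- **Q1 of MP_a28cf0_nt** (test functions in `C_c(ℍ)`): for all finite orthogonal families and positive
exponents the joint moments converge to those of independent standard Gaussian variables -/
def Q1 : Prop :=
  ∀ (ι : Type) [Fintype ι] (a : ι → ℕ), (∀ i, 0 < a i) → ∀ (t : ℕ → ι → ℝ) (f : ℕ → ι → ℂ → ℝ), Seq t f →
    ∀ ψ : ℍ → ℝ, Continuous ψ → HasCompactSupport ψ →
      Tendsto (fun k => ∫ z : ℍ, ψ z * ∏ i, f k i z ^ a i) atTop (𝓝 ((∏ i, Cn (a i)) * ∫ z : ℍ, ψ z))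

/-- for each `n` the `n`-th moments on the disc `D` of all single forms with large spectral parameter are
bounded -/
def BddForms (z₀ : ℍ) (r : ℝ) : Prop :=
  ∀ n : ℕ, ∃ A t₀ : ℝ, ∀ (t : ℝ) (f : ℂ → ℝ), t₀ ≤ t → HeckeMaass t f →
    ∫ z in Metric.ball z₀ r, |f (z : ℍ)| ^ n ≤ A

lemma joint_of_q1 (h : Q1) {ι : Type} [Fintype ι] {t : ℕ → ι → ℝ} {f : ℕ → ι → ℂ → ℝ} (hs : Seq t f) :
    JointMoments f := by
  classical
  intro a ψ hψ hψc
  have hs' : Seq (fun k (i : {i : ι // 0 < a i}) => t k i) (fun k (i : {i : ι // 0 < a i}) => f k i) :=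
    ⟨fun k => ⟨fun i => (hs.fam k).form i, fun i j hij => (hs.fam k).orth i j fun e => hij (Subtype.ext e)⟩,
      fun i => hs.lim i⟩
  have h1 := h {i : ι // 0 < a i} (fun i => a i) (fun i => i.2) _ _ hs' ψ hψ hψc
  have e : ∀ g : ι → ℕ → ℝ, (∀ i, g i 0 = 1) → ∏ i : {i : ι // 0 < a i}, g i (a i) = ∏ i, g i (a i) := by
    intro g hg
    rw [← Finset.prod_subtype (Finset.univ.filter fun i => 0 < a i) (by simp) (fun i => g i (a i))]
    refine Finset.prod_subset (Finset.subset_univ _) fun i _ hi => ?_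
    have : a i = 0 := by simpa using hi
    rw [this, hg]
  have e1 : ∏ i : {i : ι // 0 < a i}, Cn (a i) = ∏ i, Cn (a i) := by
    refine e (fun _ n => Cn n) fun i => ?_
    simp [Cn]
  have e2 : ∀ k (z : ℍ), ∏ i : {i : ι // 0 < a i}, f k i z ^ a i = ∏ i, f k i z ^ a i := fun k z =>
    e (fun i n => f k i z ^ n) fun i => pow_zero _
  simp only [e1, e2] at h1
  exact h1

lemma bdd_of_q1 (h : Q1) (z₀ : ℍ) (r : ℝ) : BddForms z₀ r := by
  intro n
  by_contra hcon
  push Not at hcon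
  choose t f ht hf hA using fun k : ℕ => hcon k k
  have htt : Tendsto t atTop atTop := tendsto_atTop_mono ht tendsto_natCast_atTop_atTop
  have hs : Seq (ι := Unit) (fun k _ => t k) (fun k _ => f k) :=
    ⟨fun k => ⟨fun _ => hf k, fun i j hij => absurd (Subsingleton.elim i j) hij⟩, fun _ => htt⟩
  have h1 := lin_of_joint (t := fun k _ => t k) (fun k i => hf k) (joint_of_q1 h hs)
  obtain ⟨A, hA'⟩ := bdd_of_lin (t := fun k _ => t k) (fun k i => hf k) h1 z₀ r n
  obtain ⟨k, hk⟩ := exists_nat_ge A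
  exact absurd (hA' k ()) (not_le.2 (hk.trans_lt (hA k)))

lemma bdd_of_forms {z₀ : ℍ} {r : ℝ} (h : BddForms z₀ r) {ι : Type} [Fintype ι] {t : ℕ → ι → ℝ}
    {f : ℕ → ι → ℂ → ℝ} (hs : Seq t f) : Bdd z₀ r f := by
  intro n
  obtain ⟨A, t₀, hA⟩ := h n
  have h1 : ∀ i, ∃ A' : ℝ, 0 ≤ A' ∧ ∀ k, ∫ z in Metric.ball z₀ r, |f k i (z : ℍ)| ^ n ≤ A' := by
    intro i
    have hev : ∀ᶠ k in atTop, ∫ z in Metric.ball z₀ r, |f k i (z : ℍ)| ^ n ≤ A := by
      filter_upwards [(hs.lim i).eventually_ge_atTop t₀] with k hk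
      exact hA (t k i) (f k i) hk ((hs.fam k).form i)
    have hb : BddAbove (Set.range fun k => ∫ z in Metric.ball z₀ r, |f k i (z : ℍ)| ^ n) :=
      Filter.IsBoundedUnder.bddAbove_range ⟨A, by rw [eventually_map]; exact hev⟩
    obtain ⟨A', hA'⟩ := hb
    exact ⟨|A'|, abs_nonneg _, fun k => (hA' ⟨k, rfl⟩).trans (le_abs_self _)⟩
  choose A' h0 hA' using h1
  exact ⟨∑ i, A' i, fun k i => (hA' i k).trans (Finset.single_le_sum (fun j _ => h0 j) (Finset.mem_univ i))⟩

/-- **The reduction of Q1.** -/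
theorem q1_iff (z₀ : ℍ) (r : ℝ) (P : ∀ {ι : Type} [Fintype ι], (ℕ → ι → ℂ → ℝ) → Prop)
    (hP : ∀ {ι : Type} [Fintype ι] (t : ℕ → ι → ℝ) (f : ℕ → ι → ℂ → ℝ), (∀ k i, HeckeMaass (t k i) (f k i)) →
      (JointMoments f ↔ P f ∧ Bdd z₀ r f)) :
    Q1 ↔ (∀ {ι : Type} [Fintype ι] (t : ℕ → ι → ℝ) (f : ℕ → ι → ℂ → ℝ), Seq t f → P f) ∧ BddForms z₀ r := by
  refine ⟨fun h => ⟨fun t f hs => ?_, bdd_of_q1 h z₀ r⟩, fun h ι _ a ha t f hs ψ hψ hψc => ?_⟩
  · exact ((hP t f fun k i => (hs.fam k).form i).1 (joint_of_q1 h hs)).1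
  · exact (hP t f fun k i => (hs.fam k).form i).2 ⟨h.1 t f hs, bdd_of_forms h.2 hs⟩ a ψ hψ hψc

/-- a single test function and a single even exponent bound the moments on the disc -/
lemma bdd_of_test {ι : Type} {t : ℕ → ι → ℝ} {f : ℕ → ι → ℂ → ℝ} (hf : ∀ k i, HeckeMaass (t k i) (f k i))
    (z₀ : ℍ) (r : ℝ) (N : ℕ) (hN : Even N) (ψ₀ : ℍ → ℝ) (hψ : Continuous ψ₀) (hψc : HasCompactSupport ψ₀)
    (hψ0 : ∀ z, 0 ≤ ψ₀ z) (hψ1 : ∀ z, dist z z₀ < r → 1 ≤ ψ₀ z)
    (hb : ∃ A : ℝ, ∀ k i, ∫ z : ℍ, ψ₀ z * f k i z ^ N ≤ A) :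
    ∃ A : ℝ, ∀ k i, ∫ z in Metric.ball z₀ r, |f k i (z : ℍ)| ^ N ≤ A := by
  obtain ⟨A, hA⟩ := hb
  refine ⟨A, fun k i => le_trans ?_ (hA k i)⟩
  simp only [hN.pow_abs]
  have hc : Continuous fun z : ℍ => ψ₀ z * f k i z ^ N := hψ.mul ((cont (hf k i)).pow N)
  have hI : Integrable fun z : ℍ => ψ₀ z * f k i z ^ N := hc.integrable_of_hasCompactSupport hψc.mul_right
  have hb1 : IntegrableOn (fun z : ℍ => f k i z ^ N) (Metric.ball z₀ r) := int_ball ((cont (hf k i)).pow N) z₀ r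
  calc ∫ z in Metric.ball z₀ r, f k i (z : ℍ) ^ N ≤ ∫ z in Metric.ball z₀ r, ψ₀ z * f k i (z : ℍ) ^ N := by
        refine setIntegral_mono_on hb1 hI.integrableOn Metric.isOpen_ball.measurableSet fun z hz => ?_
        have h1 := hψ1 z hz
        have h2 : 0 ≤ f k i z ^ N := hN.pow_nonneg _
        nlinarith
    _ ≤ ∫ z : ℍ, ψ₀ z * f k i (z : ℍ) ^ N :=
        setIntegral_le_integral hI (Eventually.of_forall fun z => mul_nonneg (hψ0 z) (hN.pow_nonneg _))

/-- **Main result.** `Big z₀ r` holds for all `z₀` if `r > 1 / √3`. Let `Big z₀ r`, and let `D` be the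
hyperbolic disc with centre `z₀` and radius `r`; let `f k = (f k i)_i` be any sequence of finite families of
real normalised Hecke-Maass cusp forms.
(1) The joint law, the law of all normed linear combinations and the convergence of the characteristic
functions are equivalent.
(2) The following are equivalent: all joint moments converge to the Gaussian ones; all moments of all
linear combinations with `∑ c_i² = 1` do; the joint law holds and the moments of the single forms on `D` are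
bounded.
(3) If the joint law holds and `∫ ψ₀ f_{k,i}^N dμ` is bounded for one even `N` and one `ψ₀ ≥ 0` in `C_c(ℍ)`
with `ψ₀ ≥ 1` on `D`, then all joint moments of total degree less than `N` converge, for all test functions.
(4) Q1 is equivalent to: for all sequences of orthogonal families with spectral parameters tending to
infinity the characteristic functions converge, and for each `n` the moments `∫_D |f|^n dμ` of all single
forms with large spectral parameter are bounded.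
(5) Q1 is equivalent to: for all these sequences the moments of all linear combinations with `∑ c_i² = 1`
converge to the Gaussian ones. -/
theorem result :
    (∀ (z₀ : ℍ) (r : ℝ), 1 / √3 < r → Big z₀ r) ∧
    (∀ (z₀ : ℍ) (r : ℝ), Big z₀ r →
      (∀ {ι : Type} [Fintype ι] (t : ℕ → ι → ℝ) (f : ℕ → ι → ℂ → ℝ), (∀ k i, HeckeMaass (t k i) (f k i)) →
        ((JointLaw f ↔ LinLaw f) ∧ (JointLaw f ↔ CharLaw f)) ∧
        ((JointMoments f ↔ LinMoments f) ∧ (JointMoments f ↔ JointLaw f ∧ Bdd z₀ r f)) ∧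
        (JointLaw f → ∀ N : ℕ, Even N → ∀ ψ₀ : ℍ → ℝ, Continuous ψ₀ → HasCompactSupport ψ₀ → (∀ z, 0 ≤ ψ₀ z) →
          (∀ z, dist z z₀ < r → 1 ≤ ψ₀ z) → (∃ A : ℝ, ∀ k i, ∫ z : ℍ, ψ₀ z * f k i z ^ N ≤ A) →
          ∀ a : ι → ℕ, ∑ i, a i < N → ∀ ψ : ℍ → ℝ, Continuous ψ → HasCompactSupport ψ →
            Tendsto (fun k => ∫ z : ℍ, ψ z * ∏ i, f k i z ^ a i) atTop (𝓝 ((∏ i, Cn (a i)) * ∫ z : ℍ, ψ z)))) ∧
      (Q1 ↔ (∀ {ι : Type} [Fintype ι] (t : ℕ → ι → ℝ) (f : ℕ → ι → ℂ → ℝ), Seq t f → CharLaw f) ∧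
        BddForms z₀ r)) ∧
    (Q1 ↔ ∀ {ι : Type} [Fintype ι] (t : ℕ → ι → ℝ) (f : ℕ → ι → ℂ → ℝ), Seq t f → LinMoments f) := by
  have key : ∀ {ι : Type} [Fintype ι] (t : ℕ → ι → ℝ) (f : ℕ → ι → ℂ → ℝ), (∀ k i, HeckeMaass (t k i) (f k i)) →
      (JointMoments f ↔ LinMoments f) := fun t f hf => by
    have hb := big_disc I 1 (by
      rw [div_lt_one (by positivity)]
      exact Real.lt_sqrt_of_sq_lt (by norm_num))
    exact (equiv hf I 1 hb).out 0 1
  refine ⟨big_disc, fun z₀ r hr => ⟨fun t f hf => ⟨⟨⟨linlaw_of_joint, fun h => joint_of_char hf (char_of_linlaw hf h)⟩,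
    ⟨fun h => char_of_linlaw hf (linlaw_of_joint h), joint_of_char hf⟩⟩, ⟨key t f hf, (equiv hf z₀ r hr).out 0 2⟩,
    fun hl N hN ψ₀ h1 h2 h3 h4 h5 a ha ψ hψ hψc =>
      deg hf z₀ r hr hl N (bdd_of_test hf z₀ r N hN ψ₀ h1 h2 h3 h4 h5) a ha ψ hψ hψc⟩,
    q1_iff z₀ r (fun f => CharLaw f) fun t f hf => (equiv hf z₀ r hr).out 0 4⟩,
    fun h ι _ t f hs => lin_of_joint (fun k i => (hs.fam k).form i) (joint_of_q1 h hs),
    fun h ι _ a ha t f hs => (key t f fun k i => (hs.fam k).form i).2 (h t f hs) a⟩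

end Pool.Agent.Results.MP_a28cf0_nt.JointMomentsAreLocal
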