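import Pool.Agent.U39.AN.G

/-!
# The direction of a tuple of eigenfunctions: a sharp bound for all joint limits (MP_a28cf0_nt)

Let `f_1, …, f_k` be Hecke-Maass forms, or any `L²` normalised Laplace eigenfunctions of a surface or
a manifold of dimension `d`, with spectral parameters `t_i → ∞` of the same order. The joint local
limits of `(f_1, …, f_k)` near a random point, at the scale `1 / max t_i`, are laws of jointly
stationary random fields `(F_1, …, F_k)` on `ℝ^d` with smooth samples, `ΔF_i + κ_i² F_i = 0`,
`κ_i = lim t_i / max t_j`, and `E F_i(0)² < ∞`. If the question has a positive answer, then the `F_i`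
are independent isotropic Gaussian waves. The theorem is about all such limits, with no hypothesis on
the dependence of the `F_i`, their covariances or higher moments (so in particular for families which
are not orthogonal, or not quantum ergodic).

Let `H = (H_1, …, H_n)` be any polynomials of degree at most `m` in the `F_i` and their partial
derivatives, for instance `H = (F_1, …, F_k)`, `m = 1`. The mean angle between the vectors `H(x)` and
`H(y)` is at most `m |x - y|`, and the mean angular velocity of the direction `H / |H|` along a line is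
at most `m`. Both bounds are sharp, for every `m` and `d`. For `H = (F_1, F_2)` this says: the local wave
number `|∂_v arg Ψ|` of the complex wave `Ψ = F_1 + i F_2` can exceed the wave number `1` at some places
(superoscillation), but its mean is at most `1`, whatever the law of `Ψ` is.

Proof idea. For every vector `a` the function `⟨a, H⟩` is a polynomial of degree `m` in the partial
derivatives of the waves, so on every line it has at most `m / π` zeros per unit length in the mean (the
method of MP_4fa179_mp.ZerosOnLines, for systems of waves of frequencies at most one). So the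
hyperplane orthogonal to `a` separates `H(x)` and `H(y)` with probability at most `m |x - y| / π`. The
angle of two vectors is `π` times the proportion of the hyperplanes through `0` which separate them.
-/

set_option autoImplicit false
open MeasureTheory Filter Topology
open scoped ContDiff ENNReal RealInnerProductSpace

namespace Pool.Agent.Results.MP_a28cf0_nt.MeanAngle

noncomputable section

/-- the Laplacian `∑ ∂_i²` of `ℝ^d` -/
def laplacian {d : ℕ} (f : EuclideanSpace ℝ (Fin d) → ℝ) (y : EuclideanSpace ℝ (Fin d)) : ℝ :=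
  ∑ i, fderiv ℝ (fun z => fderiv ℝ f z (EuclideanSpace.single i 1)) y (EuclideanSpace.single i 1)

/-- `F 0, …, F (k-1)` are jointly stationary waves on `ℝ^d` with the frequencies `κ i ∈ (0, 1]`: random
functions with smooth samples, `ΔF_i + κ_i² F_i = 0` and `E F_i(0)² < ∞`. Jointly stationary means:
the shifted tuple has the same law, in the product of copies of `ℝ` indexed by the pairs of an index
and a point. Nothing is assumed on the dependence of the `F i`. -/
structure IsJointWave {d k : ℕ} {S : Type*} [MeasurableSpace S] (P : Measure S) (κ : Fin k → ℝ)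
    (F : Fin k → S → EuclideanSpace ℝ (Fin d) → ℝ) : Prop where
  prob : IsProbabilityMeasure P
  pos : ∀ i, 0 < κ i
  le_one : ∀ i, κ i ≤ 1
  measurable : ∀ i y, Measurable fun s => F i s y
  smooth : ∀ i s, ContDiff ℝ ∞ (F i s)
  eigen : ∀ i s y, laplacian (F i s) y + κ i ^ 2 * F i s y = 0
  stationary : ∀ x : EuclideanSpace ℝ (Fin d),
    P.map (fun s i y => F i s (y + x)) = P.map (fun s i y => F i s y)
  moment : ∀ i, Integrable (fun s => F i s 0 ^ 2) P

/-- partial derivatives: `partialD [i₁, …, iₖ] f = ∂_{i₁} ⋯ ∂_{iₖ} f`, and `partialD [] f = f` -/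
def partialD {d : ℕ} : List (Fin d) → (EuclideanSpace ℝ (Fin d) → ℝ) →
    EuclideanSpace ℝ (Fin d) → ℝ
  | [], f => f
  | i :: L, f => fun y => fderiv ℝ (partialD L f) y (EuclideanSpace.single i 1)

/-- the polynomial `Q` in the partial derivatives, of all orders, of the functions `f 0, …, f (k-1)`,
at the point `y` -/
def diffPoly {d k : ℕ} (Q : MvPolynomial (Fin k × List (Fin d)) ℝ)
    (f : Fin k → EuclideanSpace ℝ (Fin d) → ℝ) (y : EuclideanSpace ℝ (Fin d)) : ℝ :=
  MvPolynomial.eval (fun j => partialD j.2 (f j.1) y) Q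

/-- the vector `(Q_1, …, Q_n)` of such polynomials, at the point `y` -/
def vec {d k n : ℕ} (Q : Fin n → MvPolynomial (Fin k × List (Fin d)) ℝ)
    (f : Fin k → EuclideanSpace ℝ (Fin d) → ℝ) (y : EuclideanSpace ℝ (Fin d)) :
    EuclideanSpace ℝ (Fin n) :=
  WithLp.toLp 2 fun l => diffPoly (Q l) f y

/-- the speed at which the direction `p / |p|` turns if `p` moves with the velocity `w`:
`(|p|² |w|² - ⟨p, w⟩²)^{1/2} / |p|²`; for `n = 2` it is `|p_1 w_2 - p_2 w_1| / |p|²` -/
def angularVelocity {n : ℕ} (p w : EuclideanSpace ℝ (Fin n)) : ℝ :=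
  √(‖p‖ ^ 2 * ‖w‖ ^ 2 - ⟪p, w⟫ ^ 2) / ‖p‖ ^ 2

open Pool.Agent.U39.SZ in
lemma partialD_eq {d : ℕ} (L : List (Fin d)) (f : EuclideanSpace ℝ (Fin d) → ℝ) :
    partialD L f = jt L f := by
  induction L with
  | nil => rfl
  | cons i L ih =>
    show (fun y => fderiv ℝ (partialD L f) y (EuclideanSpace.single i 1)) = _
    rw [ih]
    rfl

open Pool.Agent.U39.AN in
lemma diffPoly_eq {d k : ℕ} (Q : MvPolynomial (Fin k × List (Fin d)) ℝ)
    (f : Fin k → EuclideanSpace ℝ (Fin d) → ℝ) : diffPoly Q f = poK Q f := by
  funext y
  unfold diffPoly poK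
  simp only [partialD_eq]

open Pool.Agent.U39.AN in
lemma vec_eq {d k n : ℕ} (Q : Fin n → MvPolynomial (Fin k × List (Fin d)) ℝ)
    (f : Fin k → EuclideanSpace ℝ (Fin d) → ℝ) : vec Q f = vecK Q f := by
  funext y
  unfold vec vecK
  simp only [diffPoly_eq]

open Pool.Agent.U39.AN in
lemma JL_of {d k : ℕ} {S : Type*} [MeasurableSpace S] {P : Measure S} {κ : Fin k → ℝ}
    {F : Fin k → S → EuclideanSpace ℝ (Fin d) → ℝ} (h : IsJointWave P κ F) : JL P κ F :=
  ⟨h.pos, h.le_one, h.measurable, h.smooth, h.eigen, h.stationary, h.moment⟩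

/-- **Result.** Let `F_1, …, F_k` be jointly stationary waves on `ℝ^d` of frequencies in `(0, 1]`.
(1) A polynomial relation between the values and partial derivatives of the `F_i` at one point holds
at all points, almost surely. (2) A polynomial of degree `m` in them has opposite signs at `x` and `y`
with probability at most `m |y - x| / π`. (3) Let `H` be a vector of polynomials of degree at most `m`.
The mean of the angle between `H(x)` and `H(y)`, over the event that both are nonzero, is at most
`m |y - x|`. (4) For every unit vector `v` the mean of the speed at which the direction of `H` turns at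
`x` if `x` moves with the velocity `v`, over the event `H(x) ≠ 0`, is at most `m`. (5) The bounds are
sharp for every `d ≥ 1` and `m`: there are two jointly stationary waves, and `H` with two components,
for which the angle between `H(x)` and `H(x + t e_1)` is `m t` for all samples, all `x` and all
`0 ≤ t ≤ π / m`. -/
theorem result.{u} :
    (∀ (d k : ℕ) (S : Type u) (_ : MeasurableSpace S) (P : Measure S) (κ : Fin k → ℝ)
      (F : Fin k → S → EuclideanSpace ℝ (Fin d) → ℝ), IsJointWave P κ F →
      (∀ (Q : MvPolynomial (Fin k × List (Fin d)) ℝ) (x : EuclideanSpace ℝ (Fin d)),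
        P {s | diffPoly Q (fun i => F i s) x = 0 ∧ ∃ y, diffPoly Q (fun i => F i s) y ≠ 0} = 0) ∧
      (∀ (Q : MvPolynomial (Fin k × List (Fin d)) ℝ) (x y : EuclideanSpace ℝ (Fin d)),
        P.real {s | diffPoly Q (fun i => F i s) x * diffPoly Q (fun i => F i s) y < 0} ≤
          Q.totalDegree * ‖y - x‖ / Real.pi) ∧
      (∀ (n m : ℕ) (Q : Fin n → MvPolynomial (Fin k × List (Fin d)) ℝ),
        (∀ l, (Q l).totalDegree ≤ m) →
        (∀ x y : EuclideanSpace ℝ (Fin d),
          ∫⁻ s in {s | vec Q (fun i => F i s) x ≠ 0 ∧ vec Q (fun i => F i s) y ≠ 0},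
            ENNReal.ofReal (InnerProductGeometry.angle (vec Q (fun i => F i s) x)
              (vec Q (fun i => F i s) y)) ∂P ≤ ENNReal.ofReal (m * ‖y - x‖)) ∧
        (∀ x v : EuclideanSpace ℝ (Fin d), ‖v‖ = 1 →
          ∫⁻ s in {s | vec Q (fun i => F i s) x ≠ 0},
            ENNReal.ofReal (angularVelocity (vec Q (fun i => F i s) x)
              (deriv (fun t : ℝ => vec Q (fun i => F i s) (x + t • v)) 0)) ∂P ≤
            ENNReal.ofReal m))) ∧
    (∀ d : ℕ, ∀ i0 : Fin d, ∀ m : ℕ,
      ∃ (S : Type) (_ : MeasurableSpace S) (P : Measure S)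
        (F : Fin 2 → S → EuclideanSpace ℝ (Fin d) → ℝ)
        (Q : Fin 2 → MvPolynomial (Fin 2 × List (Fin d)) ℝ),
        IsJointWave P (fun _ => 1) F ∧ (∀ l, (Q l).totalDegree ≤ m) ∧
        ∀ (s : S) (x : EuclideanSpace ℝ (Fin d)) (t : ℝ), 0 ≤ t → m * t ≤ Real.pi →
          vec Q (fun i => F i s) x ≠ 0 ∧
          vec Q (fun i => F i s) (x + t • EuclideanSpace.single i0 1) ≠ 0 ∧
          InnerProductGeometry.angle (vec Q (fun i => F i s) x)
            (vec Q (fun i => F i s) (x + t • EuclideanSpace.single i0 1)) = m * t) := by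
  refine ⟨fun d k S _ P κ F hF => ?_, fun d i0 m => ?_⟩
  · have := hF.prob
    have hJ := JL_of hF
    refine ⟨fun Q x => ?_, fun Q x y => ?_, fun n m Q hQ => ⟨fun x y => ?_, fun x v hv => ?_⟩⟩
    · simp only [diffPoly_eq]
      exact (hJ.facts Q x).2.1
    · simp only [diffPoly_eq]
      exact ENNReal.toReal_le_of_le_ofReal (by positivity) ((hJ.facts Q x).2.2 _ le_rfl y)
    · simp only [vec_eq]
      exact hJ.angle Q hQ x y
    · simp only [vec_eq]
      exact hJ.speed Q hQ x hv.le
  · refine ⟨AddCircle (2 * Real.pi), inferInstance, AddCircle.haarAddCircle,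
      Pool.Agent.U39.AN.pp i0, Pool.Agent.U39.AN.RV d m, ?_, Pool.Agent.U39.AN.RV_deg d m,
      fun s x t h0 ht => ?_⟩
    · have hJ := Pool.Agent.U39.AN.pp_JL i0
      exact ⟨inferInstance, hJ.k0, hJ.k1, hJ.mF, hJ.sF, hJ.eF, hJ.st, hJ.l2⟩
    · simp only [vec_eq]
      exact Pool.Agent.U39.AN.pp_angle i0 m s x h0 ht

end

end Pool.Agent.Results.MP_a28cf0_nt.MeanAngle
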